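import Pool.Agent.Lib.MP_4d8715_gt.KR.P.Rep

/-! # The generic objects (module P-GEN) -/

namespace Pool.Agent.Lib.MP_4d8715_gt.KR

/-- the Cohen real at `ξ` -/
noncomputable def cGen (ξ : Idx) : Nm := fun j =>
  .sup fun n => if (stemEnum n).t[j]? = some true then .atom ξ (stemEnum n) else .bot

/-- the `i`-th string of the generic slalom at level `L` -/
noncomputable def sGen (ξ : Idx) (L i : ℕ) : Nm := fun j =>
  .sup fun n => if (((stemEnum n).s[L]?.bind (·[i]?)).bind (·[j]?)) = some true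
    then .atom ξ (stemEnum n) else .bot

/-- the generic sets have the following common form -/
private noncomputable def gT (ξ : Idx) (φ : Stem → Option Bool) : Tm :=
  .sup fun n => if φ (stemEnum n) = some true then .atom ξ (stemEnum n) else .bot

private theorem below_gT (ξ : Idx) (φ : Stem → Option Bool) : (gT ξ φ).Below (Order.succ ξ) := by
  intro n
  show (if φ (stemEnum n) = some true then .atom ξ (stemEnum n) else .bot : Tm).Below _
  split_ifs
  · exact Order.lt_succ ξ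
  · exact trivial

private theorem frc_gT {z : WithTop Idx} {ξ : Idx} (hξ : (ξ : WithTop Idx) < z) (p : Cond)
    (φ : Stem → Option Bool)
    (hφ : ∀ σ τ : Stem, σ ≤ τ → ∀ b, φ σ = some b → φ τ = some b) (b : Bool)
    (h : φ (p.st ξ) = some b) :
    (b = true → Frc z (gT ξ φ) p) ∧ (b = false → Frc z (.neg (gT ξ φ)) p) := by
  have hst : ∀ {p q : Cond}, Le z q p → p.st ξ ≤ q.st ξ := fun {p q} hq =>
    ((clause_iff ξ q p).mp (hq ξ hξ)).1
  constructor
  · intro hb q hq
    refine ⟨q, Le.refl z q, ?_⟩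
    obtain ⟨n, hn⟩ := stemEnum_surjective (q.st ξ)
    refine ⟨n, ?_⟩
    show Frc z (if φ (stemEnum n) = some true then .atom ξ (stemEnum n) else .bot) q
    rw [hn, if_pos (by rw [← hb]; exact hφ _ _ (hst hq) b h)]
    intro r hr
    exact ⟨r, Le.refl z r, hst hr⟩
  · intro hb q hq hc
    obtain ⟨r, hr, n, hn0⟩ := hc q (Le.refl z q)
    have hn : Frc z (if φ (stemEnum n) = some true then .atom ξ (stemEnum n) else .bot) r := hn0
    split_ifs at hn with h1
    · obtain ⟨s, hs, hle⟩ := hn r (Le.refl z r)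
      have h2 := hφ _ _ hle true h1
      have h3 := hφ _ _ (hst ((hs.trans hr).trans hq)) b h
      rw [h2, hb] at h3
      simp at h3
    · exact frc_bot hn

private theorem get_t {σ τ : Stem} (h : σ ≤ τ) (j : ℕ) (b : Bool) (hb : σ.t[j]? = some b) :
    τ.t[j]? = some b := by
  obtain ⟨t, ht⟩ := h.1
  rw [← ht]
  have hL : j < σ.t.length := by
    by_contra hcon
    rw [List.getElem?_eq_none (by omega)] at hb
    simp at hb
  rw [List.getElem?_append_left hL, hb]

private theorem get_s {σ τ : Stem} (h : σ ≤ τ) (L : ℕ) (S : List (List Bool))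
    (hS : σ.s[L]? = some S) : τ.s[L]? = some S := by
  obtain ⟨t, ht⟩ := h.2
  rw [← ht]
  have hL : L < σ.s.length := by
    by_contra hcon
    rw [List.getElem?_eq_none (by omega)] at hS
    simp at hS
  rw [List.getElem?_append_left hL, hS]

private theorem get_sb {σ τ : Stem} (h : σ ≤ τ) (L i j : ℕ) (b : Bool)
    (hb : ((σ.s[L]?.bind (·[i]?)).bind (·[j]?)) = some b) :
    ((τ.s[L]?.bind (·[i]?)).bind (·[j]?)) = some b := by
  cases hS : σ.s[L]? with
  | none => rw [hS] at hb; simp at hb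
  | some S => rw [get_s h L S hS, ← hS]; exact hb

theorem cGen_below (ξ : Idx) (j : ℕ) : (cGen ξ j).Below (Order.succ ξ) :=
  below_gT ξ fun σ => σ.t[j]?

theorem sGen_below (ξ : Idx) (L i j : ℕ) : (sGen ξ L i j).Below (Order.succ ξ) :=
  below_gT ξ fun σ => ((σ.s[L]?.bind (·[i]?)).bind (·[j]?))

theorem frc_cGen {z : WithTop Idx} {ξ : Idx} (hξ : (ξ : WithTop Idx) < z) (p : Cond) (j : ℕ)
    (b : Bool) (h : (p.st ξ).t[j]? = some b) :
    (b = true → Frc z (cGen ξ j) p) ∧ (b = false → Frc z (.neg (cGen ξ j)) p) :=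
  frc_gT hξ p (fun σ => σ.t[j]?) (fun _ _ hst b hb => get_t hst j b hb) b h

theorem frc_sGen {z : WithTop Idx} {ξ : Idx} (hξ : (ξ : WithTop Idx) < z) (p : Cond) (L i j : ℕ)
    (S : List (List Bool)) (u : List Bool) (b : Bool) (hS : (p.st ξ).s[L]? = some S)
    (hu : S[i]? = some u) (h : u[j]? = some b) :
    (b = true → Frc z (sGen ξ L i j) p) ∧ (b = false → Frc z (.neg (sGen ξ L i j)) p) :=
  frc_gT hξ p (fun σ => ((σ.s[L]?.bind (·[i]?)).bind (·[j]?)))
    (fun _ _ hst b hb => get_sb hst L i j b hb) b (by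
      simp only [hS, Option.bind_some, hu, h])

/-- every name below `ξ` is captured by the generic slalom at `ξ` (3.11) -/
theorem capture (ξ : Idx) (x : Nm) (hx : ∀ j, (x j).Below ξ) (p : Cond) :
    ∃ q, Le ⊤ q p ∧ ∃ m, ∀ L, m < L → ∀ r, Le ⊤ r q → ∃ r', Le ⊤ r' r ∧
      ∃ i < L, ∀ j < L, EqF ⊤ (x j) (sGen ξ L i j) r' := by
  obtain ⟨q, hq, hxq⟩ := add_name p ξ x hx
  refine ⟨q, hq, (q.st ξ).s.length, ?_⟩
  intro L hL r hr
  have hξ : (ξ : WithTop Idx) < ⊤ := WithTop.coe_lt_top ξ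
  obtain ⟨r1, hr1, _, hN, _, _⟩ := ext_stem r ξ (L + 1) (r.st ξ).t List.prefix_rfl
  have hget : (r1.st ξ).s[L]? = some ((r1.st ξ).s[L]'(by omega)) :=
    List.getElem?_eq_getElem (by omega)
  obtain ⟨S, hS⟩ : ∃ S, (r1.st ξ).s[L]? = some S := ⟨_, hget⟩
  have hcap := ((clause_iff ξ r1 q).mp ((hr1.trans hr) ξ hξ)).2.2 L S hL.le hS x hxq
  rw [← cap_local hx le_top] at hcap
  obtain ⟨r2, hr2, u, huS, hul, hag⟩ := hcap r1 (Le.refl ⊤ r1)
  obtain ⟨i, hi, hui⟩ := List.getElem_of_mem huS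
  have hui' : S[i]? = some u := by rw [List.getElem?_eq_getElem hi, hui]
  have hSL : S.length ≤ L := r1.width ξ L S hS
  refine ⟨r2, hr2.trans hr1, i, by omega, ?_⟩
  intro j hj
  have hS2 : (r2.st ξ).s[L]? = some S :=
    get_s ((clause_iff ξ r2 r1).mp (hr2 ξ hξ)).1 L S hS
  obtain ⟨b, hb⟩ : ∃ b, u[j]? = some b := ⟨u[j]'(by omega), List.getElem?_eq_getElem (by omega)⟩
  have h1 := frc_sGen hξ r2 L i j S u b hS2 hui' hb
  have h2 := hag j b hb
  cases b
  · exact eqF_of_neg (h2.2 rfl) (h1.2 rfl)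
  · exact eqF_of_frc (h2.1 rfl) (h1.1 rfl)

/-- the generic set at `ξ` avoids arbitrarily late long intervals (3.12) -/
theorem cohen (ξ : Idx) (l : ℕ → ℕ → Tm) (hl : ∀ k v, (l k v).Below ξ)
    (htot : ∀ k p, ∃ q, Le (ξ : WithTop Idx) q p ∧ ∃ v, Frc (ξ : WithTop Idx) (l k v) q)
    {z : WithTop Idx} (hz : (ξ : WithTop Idx) < z) (p : Cond) (m : ℕ) :
    ∃ q, Le z q p ∧ ∃ k ≥ m, ∃ v, Frc z (l k v) q ∧
      ∀ j, k < j → j ≤ v → Frc z (.neg (cGen ξ j)) q := by
  set k := max m (p.st ξ).t.length with hk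
  obtain ⟨q1, hq1, v, hv⟩ := htot k p
  have hg := glue_le z hq1
  have hst : (glue ξ q1 p).st ξ = p.st ξ := glue_st_ge q1 p le_rfl
  obtain ⟨q3, hq3, ht3, _, _, _⟩ := ext_stem (glue ξ q1 p) ξ 0
    ((p.st ξ).t ++ List.replicate (v + 1) false) (by rw [hst]; exact List.prefix_append _ _)
  have hq3z : Le z q3 (glue ξ q1 p) := hq3.mono le_top
  refine ⟨q3, hq3z.trans hg, k, le_max_left _ _, v, ?_, ?_⟩
  · rw [frc_local (hl k v) hz.le]
    exact (hv.mono (glue_le_left ξ q1 p)).mono (hq3z.mono hz.le)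
  · intro j hj hjv
    have hjt : (p.st ξ).t.length ≤ j := (le_max_right _ _).trans hj.le
    apply (frc_cGen hz q3 j false _).2 rfl
    rw [ht3, List.getElem?_append_right hjt, List.getElem?_replicate, if_pos (by omega)]

private theorem two_bits {ξ η : Idx} (h : ξ < η) (p : Cond) (a b : Bool) :
    ∃ q, Le ⊤ q p ∧ ∃ j : ℕ, (q.st ξ).t[j]? = some a ∧ (q.st η).t[j]? = some b := by
  set j := max (p.st ξ).t.length (p.st η).t.length with hj
  have h1 : (p.st ξ).t.length ≤ j := le_max_left _ _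
  have h2 : (p.st η).t.length ≤ j := le_max_right _ _
  obtain ⟨q1, hq1, ht1, _, _, hkeep⟩ := ext_stem p ξ 0
    ((p.st ξ).t ++ (List.replicate (j - (p.st ξ).t.length) false ++ [a]))
    (List.prefix_append _ _)
  have hη := (hkeep η h).1
  obtain ⟨q2, hq2, ht2, _, _, _⟩ := ext_stem q1 η 0
    ((p.st η).t ++ (List.replicate (j - (p.st η).t.length) false ++ [b]))
    (by rw [hη]; exact List.prefix_append _ _)
  refine ⟨q2, hq2.trans hq1, j, ?_, ?_⟩
  · apply get_t ((clause_iff ξ q2 q1).mp (hq2 ξ (WithTop.coe_lt_top ξ))).1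
    rw [ht1, List.getElem?_append_right h1, List.getElem?_append_right (by simp)]
    simp
  · rw [ht2, List.getElem?_append_right h2, List.getElem?_append_right (by simp)]
    simp

/-- the generic sets at different indices are different -/
theorem cGen_ne (ξ η : Idx) (h : ξ ≠ η) (p : Cond) :
    ∃ q, Le ⊤ q p ∧ ∃ j, (Frc ⊤ (cGen ξ j) q ∧ Frc ⊤ (.neg (cGen η j)) q) := by
  rcases lt_or_gt_of_ne h with hlt | hlt
  · obtain ⟨q, hq, j, h1, h2⟩ := two_bits hlt p true false
    exact ⟨q, hq, j, (frc_cGen (WithTop.coe_lt_top ξ) q j true h1).1 rfl,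
      (frc_cGen (WithTop.coe_lt_top η) q j false h2).2 rfl⟩
  · obtain ⟨q, hq, j, h1, h2⟩ := two_bits hlt p false true
    exact ⟨q, hq, j, (frc_cGen (WithTop.coe_lt_top ξ) q j true h2).1 rfl,
      (frc_cGen (WithTop.coe_lt_top η) q j false h1).2 rfl⟩

end Pool.Agent.Lib.MP_4d8715_gt.KR
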