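import Pool.Agent.Lib.MP_4d8715_gt.KR.P.Extend

/-! # The countable chain condition (module P-CCC)

`compat_of_stems`: union of two roomy conditions with the same stems on the common support.
`stems_ccc`: every uncountable family of finite partial functions from `Idx` to a countable type contains
two compatible ones (different members): by induction on the size of the domains (some size occurs
uncountably often): if some `ξ` is in uncountably many domains, restrict to those with the same value at `ξ`
and remove `ξ`; otherwise every `ξ` is in countably many domains: the domains meeting the domain of one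
member are countably many, so some member has a disjoint domain. -/

namespace Pool.Agent.Lib.MP_4d8715_gt.KR

/-- compatibility below `z` -/
def Compat (z : WithTop Idx) (p q : Cond) : Prop := ∃ r, Le z r p ∧ Le z r q

theorem Compat.mono {z z' : WithTop Idx} (h : z' ≤ z) {p q : Cond} (hc : Compat z p q) :
    Compat z' p q := by
  obtain ⟨r, h1, h2⟩ := hc
  exact ⟨r, Le.mono h h1, Le.mono h h2⟩

private theorem F_nil {p : Cond} {ξ : Idx} (h : p.st ξ = Stem.nil) : p.F ξ = ∅ := by
  have := p.card ξ
  rw [h] at this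
  simpa [Stem.nil] using this

private theorem nil_le (σ : Stem) : Stem.nil ≤ σ :=
  ⟨List.nil_prefix, List.nil_prefix⟩

private theorem stem_refl (σ : Stem) : σ ≤ σ := ⟨List.prefix_rfl, List.prefix_rfl⟩

private theorem clause_of_eq {p r : Cond} {ξ : Idx} (hF : p.F ξ ⊆ r.F ξ)
    (h : p.st ξ = Stem.nil ∨ r.st ξ = p.st ξ) : Clause ξ r p := by
  rw [clause_iff]
  rcases h with h | h
  · refine ⟨by rw [h]; exact nil_le _, hF, ?_⟩
    intro L S _ _ x hx
    rw [F_nil h] at hx
    simp at hx
  · refine ⟨by rw [h]; exact stem_refl _, hF, ?_⟩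
    intro L S hL hS x hx
    rw [h, List.getElem?_eq_none hL] at hS
    simp at hS

open Classical in
theorem compat_of_stems (p q : Cond) (hp : Roomy p) (hq : Roomy q)
    (h : ∀ ξ, p.st ξ ≠ Stem.nil → q.st ξ ≠ Stem.nil → p.st ξ = q.st ξ) : Compat ⊤ p q := by
  have hst : ∀ ξ, (if p.st ξ = Stem.nil then q.st ξ else p.st ξ) = p.st ξ ∨
      p.st ξ = Stem.nil := by
    intro ξ
    by_cases h1 : p.st ξ = Stem.nil
    · exact Or.inr h1
    · exact Or.inl (if_neg h1)
  have hst' : ∀ ξ, (if p.st ξ = Stem.nil then q.st ξ else p.st ξ) = q.st ξ ∨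
      q.st ξ = Stem.nil := by
    intro ξ
    by_cases h1 : p.st ξ = Stem.nil
    · exact Or.inl (if_pos h1)
    · by_cases h2 : q.st ξ = Stem.nil
      · exact Or.inr h2
      · left
        rw [if_neg h1]
        exact h ξ h1 h2
  let r : Cond :=
    { st := fun ξ => if p.st ξ = Stem.nil then q.st ξ else p.st ξ
      F := fun ξ => p.F ξ ∪ q.F ξ
      fin := by
        refine (p.fin.union q.fin).subset fun ξ hξ => ?_
        simp only [Set.mem_setOf_eq, Set.mem_union] at hξ ⊢
        split_ifs at hξ with h1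
        · exact Or.inr hξ
        · exact Or.inl h1
      card := by
        intro ξ
        have hp' := hp ξ
        have hq' := hq ξ
        have hpc := p.card ξ
        have hqc := q.card ξ
        refine (Finset.card_union_le _ _).trans ?_
        by_cases h1 : p.st ξ = Stem.nil
        · rw [if_pos h1, F_nil h1]
          simpa using hqc
        · rw [if_neg h1]
          by_cases h2 : q.st ξ = Stem.nil
          · rw [F_nil h2]
            simpa using hpc
          · rw [← h ξ h1 h2] at hq'
            omega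
      width := by
        intro ξ L S hS
        split_ifs at hS with h1
        · exact q.width ξ L S hS
        · exact p.width ξ L S hS
      below := by
        intro ξ x hx
        rcases Finset.mem_union.mp hx with hx | hx
        · exact p.below ξ x hx
        · exact q.below ξ x hx }
  refine ⟨r, ?_, ?_⟩
  · intro ξ _
    apply clause_of_eq (Finset.subset_union_left)
    exact (hst ξ).symm
  · intro ξ _
    apply clause_of_eq (Finset.subset_union_right)
    exact (hst' ξ).symm

private theorem stems_aux {ι S : Type*} [Countable S] (f : ι → Idx → S) (n : ℕ) :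
    ∀ (dom : ι → Finset Idx) (I : Set ι), ¬ I.Countable → (∀ i ∈ I, (dom i).card ≤ n) →
      ∃ i ∈ I, ∃ j ∈ I, i ≠ j ∧ ∀ ξ ∈ dom i, ξ ∈ dom j → f i ξ = f j ξ := by
  classical
  induction n with
  | zero =>
    intro dom I hI hc
    have h2 : ∃ i ∈ I, ∃ j ∈ I, i ≠ j := by
      by_contra hcon
      push Not at hcon
      apply hI
      have : I.Subsingleton := fun a ha b hb => hcon a ha b hb
      exact this.countable
    obtain ⟨i, hi, j, hj, hij⟩ := h2
    refine ⟨i, hi, j, hj, hij, ?_⟩
    intro ξ hξ
    have := hc i hi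
    rw [Nat.le_zero, Finset.card_eq_zero] at this
    rw [this] at hξ
    simp at hξ
  | succ n ih =>
    intro dom I hI hc
    by_cases hA : ∃ ξ, ¬ {i ∈ I | ξ ∈ dom i}.Countable
    · obtain ⟨ξ, hξ⟩ := hA
      have h1 : ∃ s : S, ¬ {i ∈ I | ξ ∈ dom i ∧ f i ξ = s}.Countable := by
        by_contra hcon
        push Not at hcon
        apply hξ
        have : {i ∈ I | ξ ∈ dom i} ⊆ ⋃ s : S, {i ∈ I | ξ ∈ dom i ∧ f i ξ = s} := by
          intro i hi
          exact Set.mem_iUnion.mpr ⟨f i ξ, hi.1, hi.2, rfl⟩
        exact (Set.countable_iUnion hcon).mono this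
      obtain ⟨s, hs⟩ := h1
      obtain ⟨i, hi, j, hj, hij, h2⟩ := ih (fun i => (dom i).erase ξ)
        {i ∈ I | ξ ∈ dom i ∧ f i ξ = s} hs (by
          intro i hi
          have := hc i hi.1
          rw [Finset.card_erase_of_mem hi.2.1]
          omega)
      refine ⟨i, hi.1, j, hj.1, hij, ?_⟩
      intro η hη hη'
      by_cases he : η = ξ
      · rw [he, hi.2.2, hj.2.2]
      · exact h2 η (Finset.mem_erase.mpr ⟨he, hη⟩) (Finset.mem_erase.mpr ⟨he, hη'⟩)
    · push Not at hA
      have hne : I.Nonempty := by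
        rw [Set.nonempty_iff_ne_empty]
        intro h
        apply hI
        rw [h]
        exact Set.countable_empty
      obtain ⟨i, hi⟩ := hne
      have h1 : (⋃ ξ ∈ dom i, {j ∈ I | ξ ∈ dom j}).Countable :=
        Set.Countable.biUnion (Finset.countable_toSet _) fun ξ _ => hA ξ
      have h2 : ¬ (I \ (insert i (⋃ ξ ∈ dom i, {j ∈ I | ξ ∈ dom j}))).Countable := by
        intro hcon
        apply hI
        have := hcon.union (h1.insert i)
        refine this.mono ?_
        intro j hj
        by_cases hj' : j ∈ insert i (⋃ ξ ∈ dom i, {j ∈ I | ξ ∈ dom j})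
        · exact Or.inr hj'
        · exact Or.inl ⟨hj, hj'⟩
      have hne : (I \ (insert i (⋃ ξ ∈ dom i, {j ∈ I | ξ ∈ dom j}))).Nonempty := by
        rw [Set.nonempty_iff_ne_empty]
        intro h
        apply h2
        rw [h]
        exact Set.countable_empty
      obtain ⟨j, hj, hj'⟩ := hne
      refine ⟨i, hi, j, hj, ?_, ?_⟩
      · intro h
        exact hj' (Or.inl h.symm)
      · intro ξ hξ hξ'
        exfalso
        apply hj'
        right
        rw [Set.mem_iUnion₂]
        exact ⟨ξ, hξ, hj, hξ'⟩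

theorem stems_ccc {ι S : Type*} [Countable S] (dom : ι → Finset Idx) (f : ι → Idx → S)
    (hι : ¬ Countable ι) :
    ∃ i j, i ≠ j ∧ ∀ ξ ∈ dom i, ξ ∈ dom j → f i ξ = f j ξ := by
  have h1 : ∃ n : ℕ, ¬ {i : ι | (dom i).card ≤ n}.Countable := by
    by_contra hcon
    push Not at hcon
    apply hι
    rw [← Set.countable_univ_iff]
    have : (Set.univ : Set ι) ⊆ ⋃ n : ℕ, {i : ι | (dom i).card ≤ n} := by
      intro i _
      exact Set.mem_iUnion.mpr ⟨(dom i).card, show (dom i).card ≤ (dom i).card from le_rfl⟩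
    exact (Set.countable_iUnion hcon).mono this
  obtain ⟨n, hn⟩ := h1
  obtain ⟨i, _, j, _, hij, h⟩ := stems_aux f n dom _ hn (fun i hi => hi)
  exact ⟨i, j, hij, h⟩

instance : Countable Stem := by
  have : Function.Injective (fun σ : Stem => (σ.t, σ.s)) := by
    intro σ τ h
    cases σ
    cases τ
    simp only [Prod.mk.injEq] at h
    rw [h.1, h.2]
  exact this.countable

theorem ccc (z : WithTop Idx) (A : Set Cond)
    (hA : ∀ p ∈ A, ∀ q ∈ A, p ≠ q → ¬ Compat z p q) : A.Countable := by
  classical
  by_contra hcon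
  have hι : ¬ Countable A := hcon
  choose r hr1 hr2 using exists_roomy
  obtain ⟨p, q, hpq, h⟩ := stems_ccc (ι := A) (S := Stem) (fun p => (r p).fin.toFinset)
    (fun p => (r p).st) hι
  apply hA p p.2 q q.2 (fun h => hpq (Subtype.ext h))
  have h2 : Compat ⊤ (r p) (r q) := by
    apply compat_of_stems _ _ (hr2 _) (hr2 _)
    intro ξ h1 h2
    exact h ξ (by simpa using h1) (by simpa using h2)
  obtain ⟨s, hs1, hs2⟩ := h2.mono (le_top : z ≤ ⊤)
  exact ⟨s, hs1.trans ((hr1 _).mono le_top), hs2.trans ((hr1 _).mono le_top)⟩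

/-- countable maximal antichains -/
theorem exists_antichain (z : WithTop Idx) (D : Set Cond) :
    ∃ A ⊆ D, A.Countable ∧ (∀ p ∈ A, ∀ q ∈ A, p ≠ q → ¬ Compat z p q) ∧
      ∀ p ∈ D, ∃ q ∈ A, Compat z p q := by
  obtain ⟨A, hA⟩ := zorn_subset {A : Set Cond | A ⊆ D ∧ ∀ p ∈ A, ∀ q ∈ A, p ≠ q →
    ¬ Compat z p q} (by
      intro c hc hchain
      refine ⟨⋃₀ c, ⟨?_, ?_⟩, fun s hs => Set.subset_sUnion_of_mem hs⟩
      · exact Set.sUnion_subset fun s hs => (hc hs).1
      · intro p ⟨s, hs, hps⟩ q ⟨t, ht, hqt⟩ hpq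
        rcases hchain.total hs ht with hst | hst
        · exact (hc ht).2 p (hst hps) q hqt hpq
        · exact (hc hs).2 p hps q (hst hqt) hpq)
  refine ⟨A, hA.prop.1, ccc z A hA.prop.2, hA.prop.2, ?_⟩
  intro p hp
  by_contra hcon
  push Not at hcon
  have hpA : p ∉ A := fun h => hcon p h ⟨p, Le.refl z p, Le.refl z p⟩
  have h1 : insert p A ∈ {A : Set Cond | A ⊆ D ∧ ∀ p ∈ A, ∀ q ∈ A, p ≠ q →
    ¬ Compat z p q} := by
    refine ⟨Set.insert_subset hp hA.prop.1, ?_⟩
    intro a ha b hb hab
    rcases ha with ha | ha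
    · rcases hb with hb | hb
      · exact absurd (ha.trans hb.symm) hab
      · rw [ha]; exact hcon b hb
    · rcases hb with hb | hb
      · rw [hb]
        rintro ⟨r, h1, h2⟩
        exact hcon a ha ⟨r, h2, h1⟩
      · exact hA.prop.2 a ha b hb hab
  have h2 := hA.le_of_ge h1 (Set.subset_insert p A)
  exact hpA (h2 (Set.mem_insert p A))

end Pool.Agent.Lib.MP_4d8715_gt.KR
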