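import Mathlib

/-!
# The forcing notion

Finite support iteration, indexed by the ordinals of the universe `Type`, of (Cohen forcing) ×
(localization forcing for the Cantor space, slaloms of width `L` at level `L`).
-/

namespace Pool.Agent.Lib.MP_4d8715_gt.KR

/-- index set of the iteration -/
abbrev Idx : Type 1 := Ordinal.{0}

/-- stems: a finite string of bits and a finite slalom (`s[L]` is a list of strings) -/
structure Stem where
  /-- the string of bits -/
  t : List Bool
  /-- the slalom -/
  s : List (List (List Bool))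

namespace Stem

/-- the trivial stem -/
def nil : Stem := ⟨[], []⟩

/-- `σ ≤ τ`: the stem `τ` extends `σ` -/
instance : LE Stem := ⟨fun σ τ => σ.t <+: τ.t ∧ σ.s <+: τ.s⟩

theorem le_def (σ τ : Stem) : σ ≤ τ ↔ σ.t <+: τ.t ∧ σ.s <+: τ.s := Iff.rfl

end Stem

/-- terms for the elements of the Boolean algebra of the forcing notion; `atom ξ σ` stands for
the statement that the generic stem at `ξ` extends `σ` -/
inductive Tm : Type 1
  | bot : Tm
  | atom (ξ : Idx) (σ : Stem) : Tm
  | neg (a : Tm) : Tm
  | sup (f : ℕ → Tm) : Tm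

/-- all atoms of the term have index below `ζ` -/
def Tm.Below (ζ : Idx) : Tm → Prop
  | .bot => True
  | .atom ξ _ => ξ < ζ
  | .neg a => a.Below ζ
  | .sup f => ∀ n, (f n).Below ζ

/-- names of subsets of `ℕ`: `x j` is the truth value of the statement that `j` belongs to `x` -/
abbrev Nm : Type 1 := ℕ → Tm

/-- conditions -/
@[ext]
structure Cond : Type 1 where
  /-- the stems -/
  st : Idx → Stem
  /-- the promises -/
  F : Idx → Finset Nm
  fin : {ξ | st ξ ≠ Stem.nil}.Finite
  card : ∀ ξ, (F ξ).card ≤ (st ξ).s.length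
  width : ∀ (ξ : Idx) (L : ℕ) (S : List (List Bool)), (st ξ).s[L]? = some S → S.length ≤ L
  below : ∀ ξ, ∀ x ∈ F ξ, ∀ j, (x j).Below ξ

section forcing

variable (R : Cond → Cond → Prop)

/-- forcing of terms with respect to the order `R` (`R q p`: `q` is stronger than `p`) -/
def frcR : Tm → Cond → Prop
  | .bot, _ => False
  | .atom ξ σ, p => ∀ q, R q p → ∃ r, R r q ∧ σ ≤ r.st ξ
  | .neg a, p => ∀ q, R q p → ¬ frcR a q
  | .sup f, p => ∀ q, R q p → ∃ r, R r q ∧ ∃ n, frcR (f n) r

/-- `p` forces that the first `u.length` bits of `x` are `u` -/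
def agreeR (x : Nm) (u : List Bool) (p : Cond) : Prop :=
  ∀ j (b : Bool), u[j]? = some b → (b = true → frcR R (x j) p) ∧ (b = false → frcR R (.neg (x j)) p)

/-- `p` forces that the string of the first `L` bits of `x` is in the list `S` -/
def capR (x : Nm) (L : ℕ) (S : List (List Bool)) (p : Cond) : Prop :=
  ∀ q, R q p → ∃ r, R r q ∧ ∃ u ∈ S, u.length = L ∧ agreeR R x u r

/-- the clause of the order at the index `ξ`; `R` is the order of the conditions below `ξ` -/
def clauseR (ξ : Idx) (p q : Cond) : Prop :=
  q.st ξ ≤ p.st ξ ∧ q.F ξ ⊆ p.F ξ ∧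
    ∀ (L : ℕ) (S : List (List Bool)), (q.st ξ).s.length ≤ L → (p.st ξ).s[L]? = some S → ∀ x ∈ q.F ξ, capR R x L S p

end forcing

/-- `leAt ζ p q`: below `ζ` the condition `p` is stronger than `q` -/
noncomputable def leAt : Idx → Cond → Cond → Prop :=
  WellFounded.fix (C := fun _ => Cond → Cond → Prop) (wellFounded_lt (α := Idx))
    (fun ζ ih p q => ∀ ξ, ∀ h : ξ < ζ, clauseR (ih ξ h) ξ p q)

/-- the clause of the order at the index `ξ` -/
def Clause (ξ : Idx) (p q : Cond) : Prop := clauseR (leAt ξ) ξ p q

/-- `Le z p q`: below `z` the condition `p` is stronger than `q`; `z = ⊤` gives the order of the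
forcing notion -/
def Le (z : WithTop Idx) (p q : Cond) : Prop := ∀ ξ : Idx, (ξ : WithTop Idx) < z → Clause ξ p q

/-- forcing of terms, conditions below `z` -/
def Frc (z : WithTop Idx) (a : Tm) (p : Cond) : Prop := frcR (Le z) a p

/-- `p` forces that the first `u.length` bits of `x` are `u` -/
def Agree (z : WithTop Idx) (x : Nm) (u : List Bool) (p : Cond) : Prop := agreeR (Le z) x u p

/-- `p` forces that the string of the first `L` bits of `x` is in the list `S` -/
def Cap (z : WithTop Idx) (x : Nm) (L : ℕ) (S : List (List Bool)) (p : Cond) : Prop :=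
  capR (Le z) x L S p

open Classical in
/-- the condition equal to `q` below `ζ` and to `p` from `ζ` on -/
noncomputable def glue (ζ : Idx) (q p : Cond) : Cond where
  st ξ := if ξ < ζ then q.st ξ else p.st ξ
  F ξ := if ξ < ζ then q.F ξ else p.F ξ
  fin := by
    refine (q.fin.union p.fin).subset fun ξ hξ => ?_
    simp only [Set.mem_setOf_eq, Set.mem_union] at hξ ⊢
    split_ifs at hξ
    · exact Or.inl hξ
    · exact Or.inr hξ
  card ξ := by
    split_ifs
    · exact q.card ξ
    · exact p.card ξ
  width ξ L S h := by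
    split_ifs at h
    · exact q.width ξ L S h
    · exact p.width ξ L S h
  below ξ x hx := by
    split_ifs at hx
    · exact q.below ξ x hx
    · exact p.below ξ x hx

/-- the trivial condition -/
def Cond.triv : Cond where
  st _ := Stem.nil
  F _ := ∅
  fin := by simp
  card ξ := by simp
  width ξ L S h := by simp [Stem.nil] at h
  below ξ x hx := by simp at hx

open Classical in
/-- replace the coordinate `ζ` of `p` by `(σ, G)` -/
noncomputable def upd (p : Cond) (ζ : Idx) (σ : Stem) (G : Finset Nm)
    (hc : G.card ≤ σ.s.length) (hw : ∀ (L : ℕ) (S : List (List Bool)), σ.s[L]? = some S → S.length ≤ L)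
    (hb : ∀ x ∈ G, ∀ j, (x j).Below ζ) : Cond where
  st ξ := if ξ = ζ then σ else p.st ξ
  F ξ := if ξ = ζ then G else p.F ξ
  fin := by
    refine (p.fin.insert ζ).subset fun ξ hξ => ?_
    simp only [Set.mem_setOf_eq, Set.mem_insert_iff] at hξ ⊢
    split_ifs at hξ with h
    · exact Or.inl h
    · exact Or.inr hξ
  card ξ := by
    split_ifs
    · exact hc
    · exact p.card ξ
  width ξ L S h := by
    split_ifs at h
    · exact hw L S h
    · exact p.width ξ L S h
  below ξ x hx := by
    split_ifs at hx with h
    · rw [h]; exact hb x hx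
    · exact p.below ξ x hx

end Pool.Agent.Lib.MP_4d8715_gt.KR
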