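import Pool.Agent.Lib.MP_4d8715_gt.KR.P.Glue

/-! # Extending conditions (module P-EXT) -/

namespace Pool.Agent.Lib.MP_4d8715_gt.KR

section upd

variable {p : Cond} {ζ : Idx} {σ : Stem} {G : Finset Nm} {hc : G.card ≤ σ.s.length}
  {hw : ∀ (L : ℕ) (S : List (List Bool)), σ.s[L]? = some S → S.length ≤ L}
  {hb : ∀ x ∈ G, ∀ j, (x j).Below ζ}

theorem extend_upd_st : (upd p ζ σ G hc hw hb).st ζ = σ := if_pos rfl

theorem extend_upd_F : (upd p ζ σ G hc hw hb).F ζ = G := if_pos rfl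

theorem extend_upd_st_ne {ξ : Idx} (h : ξ ≠ ζ) : (upd p ζ σ G hc hw hb).st ξ = p.st ξ := if_neg h

theorem extend_upd_F_ne {ξ : Idx} (h : ξ ≠ ζ) : (upd p ζ σ G hc hw hb).F ξ = p.F ξ := if_neg h

theorem extend_upd_le : Le (ζ : WithTop Idx) (upd p ζ σ G hc hw hb) p :=
  (Le.congr (z := (ζ : WithTop Idx)) (p := upd p ζ σ G hc hw hb) (p' := p) (q := p) (q' := p)
    (fun _ hξ => ⟨extend_upd_st_ne (WithTop.coe_lt_coe.mp hξ).ne,
      extend_upd_F_ne (WithTop.coe_lt_coe.mp hξ).ne⟩)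
    (fun _ _ => ⟨rfl, rfl⟩)).mpr (Le.refl _ p)

end upd

theorem extend_clause {p q : Cond} {η : Idx} (ht : (p.st η).t <+: (q.st η).t)
    (hs : (q.st η).s = (p.st η).s) (hF : p.F η ⊆ q.F η) : Clause η q p := by
  rw [clause_iff]
  refine ⟨⟨ht, by rw [hs]⟩, hF, fun L S h1 h2 => ?_⟩
  rw [hs] at h2
  exact absurd (order_lt_length h2) (not_lt.mpr h1)

theorem extend_le {p q : Cond} {ξ : Idx} (h1 : Le (ξ : WithTop Idx) q p) (h2 : Clause ξ q p)
    (h3 : ∀ η, ξ < η → q.st η = p.st η ∧ q.F η = p.F η) : Le ⊤ q p := by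
  intro η _
  rcases lt_trichotomy η ξ with h | h | h
  · exact h1 η (WithTop.coe_lt_coe.mpr h)
  · rw [h]; exact h2
  · obtain ⟨e1, e2⟩ := h3 η h
    exact extend_clause (by rw [e1]) (by rw [e1]) e2.ge

theorem extend_t (p : Cond) (ξ : Idx) (u : List Bool) (hu : (p.st ξ).t <+: u) :
    ∃ q, Le ⊤ q p ∧ (q.st ξ).t = u ∧ q.F ξ = p.F ξ ∧
      ∀ η, ξ < η → q.st η = p.st η ∧ q.F η = p.F η := by
  refine ⟨upd p ξ ⟨u, (p.st ξ).s⟩ (p.F ξ) (p.card ξ) (p.width ξ) (p.below ξ), ?_, ?_, ?_, ?_⟩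
  · refine extend_le extend_upd_le (extend_clause ?_ ?_ ?_)
      (fun η hη => ⟨extend_upd_st_ne hη.ne', extend_upd_F_ne hη.ne'⟩)
    · rw [extend_upd_st]; exact hu
    · rw [extend_upd_st]
    · rw [extend_upd_F]
  · rw [extend_upd_st]
  · rw [extend_upd_F]
  · exact fun η hη => ⟨extend_upd_st_ne hη.ne', extend_upd_F_ne hη.ne'⟩

theorem extend_step (p : Cond) (ξ : Idx) :
    ∃ q, Le ⊤ q p ∧ (q.st ξ).t = (p.st ξ).t ∧ (p.st ξ).s.length + 1 ≤ (q.st ξ).s.length ∧
      q.F ξ = p.F ξ ∧ ∀ η, ξ < η → q.st η = p.st η ∧ q.F η = p.F η := by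
  obtain ⟨r, hr, u, hu⟩ := exists_agree_finset (ξ : WithTop Idx) (p.F ξ) (p.st ξ).s.length p
  set S : List (List Bool) := (p.F ξ).toList.map u with hS
  have hSl : S.length ≤ (p.st ξ).s.length := by
    rw [hS, List.length_map, Finset.length_toList]
    exact p.card ξ
  have hget : ∀ (L : ℕ) (S' : List (List Bool)), ((p.st ξ).s ++ [S])[L]? = some S' →
      (p.st ξ).s.length ≤ L → L = (p.st ξ).s.length ∧ S' = S := by
    intro L S' h1 h2
    have h3 := order_lt_length h1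
    simp only [List.length_append, List.length_singleton] at h3
    have h4 : L = (p.st ξ).s.length := by omega
    refine ⟨h4, ?_⟩
    rw [h4, List.getElem?_append_right le_rfl, Nat.sub_self] at h1
    simpa using h1.symm
  have hw : ∀ (L : ℕ) (S' : List (List Bool)),
      (⟨(p.st ξ).t, (p.st ξ).s ++ [S]⟩ : Stem).s[L]? = some S' → S'.length ≤ L := by
    intro L S' h1
    by_cases hL : L < (p.st ξ).s.length
    · change ((p.st ξ).s ++ [S])[L]? = some S' at h1
      rw [List.getElem?_append_left hL] at h1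
      exact p.width ξ L S' h1
    · obtain ⟨e1, e2⟩ := hget L S' h1 (not_lt.mp hL)
      rw [e1, e2]; exact hSl
  have hc : (p.F ξ).card ≤ (⟨(p.st ξ).t, (p.st ξ).s ++ [S]⟩ : Stem).s.length := by
    change (p.F ξ).card ≤ ((p.st ξ).s ++ [S]).length
    rw [List.length_append]
    exact (p.card ξ).trans (Nat.le_add_right _ _)
  have hqr : Le (ξ : WithTop Idx) (upd (glue ξ r p) ξ ⟨(p.st ξ).t, (p.st ξ).s ++ [S]⟩ (p.F ξ)
      hc hw (p.below ξ)) r := extend_upd_le.trans (glue_le_left ξ r p)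
  refine ⟨upd (glue ξ r p) ξ ⟨(p.st ξ).t, (p.st ξ).s ++ [S]⟩ (p.F ξ) hc hw (p.below ξ),
    ?_, ?_, ?_, ?_, ?_⟩
  · refine extend_le (hqr.trans hr) ?_ ?_
    · rw [clause_iff, extend_upd_st, extend_upd_F]
      refine ⟨⟨List.prefix_refl _, List.prefix_append _ _⟩, Finset.Subset.refl _,
        fun L S' h1 h2 x hx => ?_⟩
      obtain ⟨e1, e2⟩ := hget L S' h2 h1
      rw [e1, e2, ← (hu x hx).1]
      refine Agree.cap (Agree.mono (hu x hx).2 hqr) ?_
      rw [hS]
      exact List.mem_map.mpr ⟨x, Finset.mem_toList.mpr hx, rfl⟩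
    · intro η hη
      rw [extend_upd_st_ne hη.ne', extend_upd_F_ne hη.ne']
      exact ⟨glue_st_ge r p hη.le, glue_F_ge r p hη.le⟩
  · rw [extend_upd_st]
  · rw [extend_upd_st]
    change _ ≤ ((p.st ξ).s ++ [S]).length
    rw [List.length_append, List.length_singleton]
  · rw [extend_upd_F]
  · intro η hη
    rw [extend_upd_st_ne hη.ne', extend_upd_F_ne hη.ne']
    exact ⟨glue_st_ge r p hη.le, glue_F_ge r p hη.le⟩

theorem ext_stem (p : Cond) (ξ : Idx) (N : ℕ) (u : List Bool) (hu : (p.st ξ).t <+: u) :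
    ∃ q, Le ⊤ q p ∧ (q.st ξ).t = u ∧ N ≤ (q.st ξ).s.length ∧ q.F ξ = p.F ξ ∧
      ∀ η, ξ < η → q.st η = p.st η ∧ q.F η = p.F η := by
  induction N with
  | zero =>
    obtain ⟨q, h1, h2, h3, h4⟩ := extend_t p ξ u hu
    exact ⟨q, h1, h2, Nat.zero_le _, h3, h4⟩
  | succ N ih =>
    obtain ⟨q, h1, h2, h3, h4, h5⟩ := ih
    obtain ⟨r, g1, g2, g3, g4, g5⟩ := extend_step q ξ
    refine ⟨r, g1.trans h1, g2.trans h2, by omega, g4.trans h4, fun η hη => ?_⟩
    exact ⟨(g5 η hη).1.trans (h5 η hη).1, (g5 η hη).2.trans (h5 η hη).2⟩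

/-- names can be added if there is room -/
theorem add_names (p : Cond) (ζ : Idx) (G : Finset Nm) (hG : ∀ x ∈ G, ∀ j, (x j).Below ζ)
    (hF : p.F ζ ⊆ G) (hc : G.card ≤ (p.st ζ).s.length) :
    ∃ q, Le ⊤ q p ∧ q.st = p.st ∧ q.F ζ = G ∧ ∀ ξ, ξ ≠ ζ → q.F ξ = p.F ξ := by
  refine ⟨upd p ζ (p.st ζ) G hc (p.width ζ) hG, ?_, ?_, extend_upd_F,
    fun ξ hξ => extend_upd_F_ne hξ⟩
  · refine extend_le extend_upd_le (extend_clause ?_ ?_ ?_)
      (fun η hη => ⟨extend_upd_st_ne hη.ne', extend_upd_F_ne hη.ne'⟩)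
    · rw [extend_upd_st]
    · rw [extend_upd_st]
    · rw [extend_upd_F]; exact hF
  · funext ξ
    by_cases h : ξ = ζ
    · rw [h]; exact extend_upd_st
    · exact extend_upd_st_ne h

theorem add_name (p : Cond) (ζ : Idx) (x : Nm) (hx : ∀ j, (x j).Below ζ) :
    ∃ q, Le ⊤ q p ∧ x ∈ q.F ζ := by
  classical
  obtain ⟨q, h1, -, h3, h4, -⟩ := ext_stem p ζ ((p.F ζ).card + 1) (p.st ζ).t (List.prefix_refl _)
  obtain ⟨r, g1, -, g3, -⟩ := add_names q ζ (insert x (q.F ζ))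
    (fun y hy => by
      rcases Finset.mem_insert.mp hy with h | h
      · rw [h]; exact hx
      · exact q.below ζ y h)
    (Finset.subset_insert _ _)
    ((Finset.card_insert_le _ _).trans (by rw [h4]; exact h3))
  exact ⟨r, g1.trans h1, by rw [g3]; exact Finset.mem_insert_self _ _⟩

/-- the dense set of the conditions with enough room -/
def Roomy (p : Cond) : Prop := ∀ ξ, 2 * (p.F ξ).card ≤ (p.st ξ).s.length

theorem extend_F_empty {p : Cond} {ξ : Idx} (h : p.st ξ = Stem.nil) : (p.F ξ).card = 0 := by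
  have h2 := p.card ξ
  rw [h] at h2
  exact Nat.le_zero.mp h2

theorem exists_roomy (p : Cond) : ∃ q, Le ⊤ q p ∧ Roomy q := by
  have key : ∀ (ζ : Idx) (p : Cond), (∀ ξ, ζ ≤ ξ → 2 * (p.F ξ).card ≤ (p.st ξ).s.length) →
      ∃ q, Le ⊤ q p ∧ Roomy q := by
    intro ζ
    induction ζ using WellFoundedLT.induction with
    | _ ζ ih =>
      intro p hp
      by_cases hne : ({ξ | p.st ξ ≠ Stem.nil} ∩ Set.Iio ζ).Nonempty
      · have hfin : ({ξ | p.st ξ ≠ Stem.nil} ∩ Set.Iio ζ).Finite := p.fin.subset Set.inter_subset_left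
        obtain ⟨ξ, hξ, hmax⟩ := hfin.exists_maximal hne
        obtain ⟨q, h1, h2, h3, h4, h5⟩ := ext_stem p ξ (2 * (p.F ξ).card) (p.st ξ).t
          (List.prefix_refl _)
        have hq : ∀ η, ξ ≤ η → 2 * (q.F η).card ≤ (q.st η).s.length := by
          intro η hη
          rcases eq_or_lt_of_le hη with h | h
          · rw [← h, h4]; exact h3
          · rw [(h5 η h).1, (h5 η h).2]
            rcases lt_or_ge η ζ with hlt | hge
            · have : p.st η = Stem.nil := by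
                by_contra hcon
                have := hmax (⟨hcon, hlt⟩ : η ∈ {ξ | p.st ξ ≠ Stem.nil} ∩ Set.Iio ζ) hη
                exact absurd h (not_lt.mpr this)
              rw [extend_F_empty this]
              exact Nat.zero_le _
            · exact hp η hge
        obtain ⟨r, hr, hroom⟩ := ih ξ hξ.2 q hq
        exact ⟨r, hr.trans h1, hroom⟩
      · refine ⟨p, Le.refl _ p, fun ξ => ?_⟩
        rcases lt_or_ge ξ ζ with hlt | hge
        · have : p.st ξ = Stem.nil := by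
            by_contra hcon
            exact hne ⟨ξ, hcon, hlt⟩
          rw [extend_F_empty this]
          exact Nat.zero_le _
        · exact hp ξ hge
  obtain ⟨ζ, hζ⟩ := exists_bound p
  refine key ζ p fun ξ hξ => ?_
  rw [extend_F_empty (hζ ξ hξ).1]
  exact Nat.zero_le _

end Pool.Agent.Lib.MP_4d8715_gt.KR
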