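import Pool.Agent.Lib.MP_4d8715_gt.KR.P.Order

/-! # Forcing of terms (module P-FORCE) -/

namespace Pool.Agent.Lib.MP_4d8715_gt.KR

variable {z : WithTop Idx} {a b : Tm} {p q : Cond}

/-- `p` forces that `a` and `b` are equivalent -/
def EqF (z : WithTop Idx) (a b : Tm) (p : Cond) : Prop := ∀ q, Le z q p → (Frc z a q ↔ Frc z b q)

theorem frc_bot : ¬ Frc z .bot p := fun h => h

theorem frc_atom (ξ : Idx) (σ : Stem) :
    Frc z (.atom ξ σ) p ↔ ∀ q, Le z q p → ∃ r, Le z r q ∧ σ ≤ r.st ξ := Iff.rfl

theorem frc_neg : Frc z (.neg a) p ↔ ∀ q, Le z q p → ¬ Frc z a q := Iff.rfl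

theorem frc_sup (f : ℕ → Tm) :
    Frc z (.sup f) p ↔ ∀ q, Le z q p → ∃ r, Le z r q ∧ ∃ n, Frc z (f n) r := Iff.rfl

theorem Frc.mono (h : Frc z a p) (hq : Le z q p) : Frc z a q := by
  cases a with
  | bot => exact h
  | atom ξ σ => exact fun r hr => h r (hr.trans hq)
  | neg a => exact fun r hr => h r (hr.trans hq)
  | sup f => exact fun r hr => h r (hr.trans hq)

theorem Frc.dense (h : ∀ q, Le z q p → ∃ r, Le z r q ∧ Frc z a r) : Frc z a p := by
  cases a with
  | bot =>
    obtain ⟨r, _, hr⟩ := h p (Le.refl z p)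
    exact hr
  | atom ξ σ =>
    intro q hq
    obtain ⟨r, hr, hf⟩ := h q hq
    obtain ⟨r', hr', hs⟩ := hf r (Le.refl z r)
    exact ⟨r', hr'.trans hr, hs⟩
  | neg a =>
    intro q hq hf
    obtain ⟨r, hr, hn⟩ := h q hq
    exact hn r (Le.refl z r) (Frc.mono hf hr)
  | sup f =>
    intro q hq
    obtain ⟨r, hr, hf⟩ := h q hq
    obtain ⟨r', hr', n, hn⟩ := hf r (Le.refl z r)
    exact ⟨r', hr'.trans hr, n, hn⟩

theorem frc_decide (z : WithTop Idx) (a : Tm) (p : Cond) :
    ∃ q, Le z q p ∧ (Frc z a q ∨ Frc z (.neg a) q) := by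
  by_cases h : ∃ q, Le z q p ∧ Frc z a q
  · obtain ⟨q, hq, hf⟩ := h
    exact ⟨q, hq, Or.inl hf⟩
  · exact ⟨p, Le.refl z p, Or.inr fun q hq hf => h ⟨q, hq, hf⟩⟩

theorem not_frc_both (h : Frc z a p) (h' : Frc z (.neg a) p) : False :=
  h' p (Le.refl z p) h

/-- if `p` does not force `a` then some stronger condition forces `neg a` -/
theorem exists_neg_of_not (h : ¬ Frc z a p) : ∃ q, Le z q p ∧ Frc z (.neg a) q := by
  by_contra hcon
  refine h (Frc.dense fun q hq => ?_)
  by_contra hc
  exact hcon ⟨q, hq, fun r hr hf => hc ⟨r, hr, hf⟩⟩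

theorem frc_of_neg_neg (h : Frc z (.neg (.neg a)) p) : Frc z a p := by
  refine Frc.dense fun q hq => ?_
  by_contra hc
  exact h q hq fun r hr hf => hc ⟨r, hr, hf⟩

theorem EqF.mono (h : EqF z a b p) (hq : Le z q p) : EqF z a b q :=
  fun r hr => h r (hr.trans hq)

theorem EqF.symm (h : EqF z a b p) : EqF z b a p :=
  fun r hr => (h r hr).symm

theorem EqF.trans {c : Tm} (h : EqF z a b p) (h' : EqF z b c p) : EqF z a c p :=
  fun r hr => (h r hr).trans (h' r hr)

theorem EqF.neg (h : EqF z a b p) : EqF z (.neg a) (.neg b) p := by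
  intro q hq
  constructor
  · intro hn r hr hf
    exact hn r hr ((h r (hr.trans hq)).mpr hf)
  · intro hn r hr hf
    exact hn r hr ((h r (hr.trans hq)).mp hf)

theorem eqF_of_frc (h : Frc z a p) (h' : Frc z b p) : EqF z a b p :=
  fun _ hq => ⟨fun _ => h'.mono hq, fun _ => h.mono hq⟩

theorem eqF_of_neg (h : Frc z (.neg a) p) (h' : Frc z (.neg b) p) : EqF z a b p :=
  fun q hq => ⟨fun hf => (h q hq hf).elim, fun hf => (h' q hq hf).elim⟩

theorem Agree.mono {x : Nm} {u : List Bool} (h : Agree z x u p) (hq : Le z q p) :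
    Agree z x u q :=
  fun j b hj => ⟨fun hb => Frc.mono ((h j b hj).1 hb) hq, fun hb => Frc.mono ((h j b hj).2 hb) hq⟩

theorem Cap.mono {x : Nm} {L : ℕ} {S : List (List Bool)} (h : Cap z x L S p) (hq : Le z q p) :
    Cap z x L S q :=
  fun r hr => h r (hr.trans hq)

theorem Cap.dense {x : Nm} {L : ℕ} {S : List (List Bool)}
    (h : ∀ q, Le z q p → ∃ r, Le z r q ∧ Cap z x L S r) : Cap z x L S p := by
  intro q hq
  obtain ⟨r, hr, hc⟩ := h q hq
  obtain ⟨r', hr', u, hu, hl, ha⟩ := hc r (Le.refl z r)
  exact ⟨r', hr'.trans hr, u, hu, hl, ha⟩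

theorem Agree.cap {x : Nm} {u : List Bool} {S : List (List Bool)} (h : Agree z x u p)
    (hu : u ∈ S) : Cap z x u.length S p :=
  fun q hq => ⟨q, Le.refl z q, u, hu, rfl, Agree.mono h hq⟩

/-- two strings forced to be initial segments of the same name are comparable -/
theorem Agree.unique {x : Nm} {u u' : List Bool} (h : Agree z x u p) (h' : Agree z x u' p)
    (hl : u.length = u'.length) : u = u' := by
  refine List.ext_getElem hl fun j h1 h2 => ?_
  have e1 := h j u[j] (List.getElem?_eq_getElem h1)
  have e2 := h' j u'[j] (List.getElem?_eq_getElem h2)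
  cases hb : u[j] with
  | true =>
    cases hb' : u'[j] with
    | true => rfl
    | false => exact (not_frc_both (e1.1 hb) (e2.2 hb')).elim
  | false =>
    cases hb' : u'[j] with
    | true => exact (not_frc_both (e2.1 hb') (e1.2 hb)).elim
    | false => rfl

theorem Agree.congr {x y : Nm} {u : List Bool} (h : Agree z x u p)
    (hxy : ∀ j < u.length, EqF z (x j) (y j) p) : Agree z y u p := by
  intro j b hj
  have hlt : j < u.length := order_lt_length hj
  exact ⟨fun hb => (hxy j hlt p (Le.refl z p)).mp ((h j b hj).1 hb),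
    fun hb => ((hxy j hlt).neg p (Le.refl z p)).mp ((h j b hj).2 hb)⟩

theorem Cap.congr {x y : Nm} {L : ℕ} {S : List (List Bool)} (h : Cap z x L S p)
    (hxy : ∀ j < L, EqF z (x j) (y j) p) : Cap z y L S p := by
  intro q hq
  obtain ⟨r, hr, u, hu, hl, ha⟩ := h q hq
  exact ⟨r, hr, u, hu, hl, Agree.congr ha fun j hj => (hxy j (hl ▸ hj)).mono (hr.trans hq)⟩

/-- finitely many bits of a name can be decided -/
theorem exists_agree (z : WithTop Idx) (x : Nm) (L : ℕ) (p : Cond) :
    ∃ q, Le z q p ∧ ∃ u : List Bool, u.length = L ∧ Agree z x u q := by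
  induction L with
  | zero => exact ⟨p, Le.refl z p, [], rfl, fun j b hj => by simp at hj⟩
  | succ L ih =>
    obtain ⟨q, hq, u, hl, ha⟩ := ih
    obtain ⟨r, hr, hd⟩ := frc_decide z (x L) q
    rcases hd with hd | hd
    · refine ⟨r, hr.trans hq, u ++ [true], by simp [hl], fun j b hj => ?_⟩
      by_cases hlt : j < u.length
      · rw [List.getElem?_append_left hlt] at hj
        exact (Agree.mono ha hr) j b hj
      · have hj2 : j = L := by
          have := order_lt_length hj
          simp only [List.length_append, List.length_singleton] at this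
          omega
        subst hj2
        rw [List.getElem?_append_right (by omega), hl, Nat.sub_self] at hj
        simp only [List.getElem?_cons_zero, Option.some.injEq] at hj
        exact ⟨fun _ => hd, fun hb => by rw [← hj] at hb; exact absurd hb (by decide)⟩
    · refine ⟨r, hr.trans hq, u ++ [false], by simp [hl], fun j b hj => ?_⟩
      by_cases hlt : j < u.length
      · rw [List.getElem?_append_left hlt] at hj
        exact (Agree.mono ha hr) j b hj
      · have hj2 : j = L := by
          have := order_lt_length hj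
          simp only [List.length_append, List.length_singleton] at this
          omega
        subst hj2
        rw [List.getElem?_append_right (by omega), hl, Nat.sub_self] at hj
        simp only [List.getElem?_cons_zero, Option.some.injEq] at hj
        exact ⟨fun hb => by rw [← hj] at hb; exact absurd hb (by decide), fun _ => hd⟩

/-- finitely many bits of finitely many names can be decided -/
theorem exists_agree_finset (z : WithTop Idx) (G : Finset Nm) (L : ℕ) (p : Cond) :
    ∃ q, Le z q p ∧ ∃ u : Nm → List Bool, ∀ x ∈ G, (u x).length = L ∧ Agree z x (u x) q := by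
  classical
  induction G using Finset.induction_on with
  | empty => exact ⟨p, Le.refl z p, fun _ => [], fun x hx => absurd hx (Finset.notMem_empty x)⟩
  | insert y G hy ih =>
    obtain ⟨q, hq, u, hu⟩ := ih
    obtain ⟨r, hr, v, hl, ha⟩ := exists_agree z y L q
    refine ⟨r, hr.trans hq, fun x => if x = y then v else u x, fun x hx => ?_⟩
    by_cases hxy : x = y
    · subst hxy
      simp only [if_true]
      exact ⟨hl, ha⟩
    · simp only [hxy, if_false]
      have hxG := (Finset.mem_insert.mp hx).resolve_left hxy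
      exact ⟨(hu x hxG).1, Agree.mono (hu x hxG).2 hr⟩

end Pool.Agent.Lib.MP_4d8715_gt.KR
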