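import Pool.Agent.Lib.MP_4d8715_gt.KR.P.Force

/-! # Amalgamation and locality (module P-GLUE) -/

namespace Pool.Agent.Lib.MP_4d8715_gt.KR

theorem glue_st_lt {ζ ξ : Idx} (q p : Cond) (h : ξ < ζ) : (glue ζ q p).st ξ = q.st ξ :=
  if_pos h

theorem glue_F_lt {ζ ξ : Idx} (q p : Cond) (h : ξ < ζ) : (glue ζ q p).F ξ = q.F ξ :=
  if_pos h

theorem glue_st_ge {ζ ξ : Idx} (q p : Cond) (h : ζ ≤ ξ) : (glue ζ q p).st ξ = p.st ξ :=
  if_neg (not_lt.mpr h)

theorem glue_F_ge {ζ ξ : Idx} (q p : Cond) (h : ζ ≤ ξ) : (glue ζ q p).F ξ = p.F ξ :=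
  if_neg (not_lt.mpr h)

theorem glue_le_left (ζ : Idx) (q p : Cond) : Le (ζ : WithTop Idx) (glue ζ q p) q :=
  (Le.congr (z := (ζ : WithTop Idx)) (p := glue ζ q p) (p' := q) (q := q) (q' := q)
    (fun ξ hξ => ⟨glue_st_lt q p (WithTop.coe_lt_coe.mp hξ),
      glue_F_lt q p (WithTop.coe_lt_coe.mp hξ)⟩)
    (fun _ _ => ⟨rfl, rfl⟩)).mpr (Le.refl _ q)

theorem left_le_glue (ζ : Idx) (q p : Cond) : Le (ζ : WithTop Idx) q (glue ζ q p) :=
  (Le.congr (z := (ζ : WithTop Idx)) (p := q) (p' := q) (q := glue ζ q p) (q' := q)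
    (fun _ _ => ⟨rfl, rfl⟩)
    (fun ξ hξ => ⟨glue_st_lt q p (WithTop.coe_lt_coe.mp hξ),
      glue_F_lt q p (WithTop.coe_lt_coe.mp hξ)⟩)).mpr (Le.refl _ q)

theorem glue_le (z : WithTop Idx) {ζ : Idx} {q p : Cond} (h : Le (ζ : WithTop Idx) q p) :
    Le z (glue ζ q p) p := by
  intro ξ _
  rcases lt_or_ge ξ ζ with hlt | hge
  · exact (glue_le_left ζ q p).trans h ξ (WithTop.coe_lt_coe.mpr hlt)
  · rw [clause_iff, glue_st_ge q p hge]
    refine ⟨⟨List.prefix_refl _, List.prefix_refl _⟩, (glue_F_ge q p hge).ge, fun L S h1 h2 => ?_⟩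
    exact absurd (order_lt_length h2) (not_lt.mpr h1)

theorem Tm.Below.mono {ζ ζ' : Idx} {a : Tm} (h : a.Below ζ) (hζ : ζ ≤ ζ') : a.Below ζ' := by
  induction a with
  | bot => trivial
  | atom ξ σ => exact lt_of_lt_of_le h hζ
  | neg a ih => exact ih h
  | sup f ih => exact fun n => ih n (h n)

theorem frc_local {ζ : Idx} {z : WithTop Idx} {a : Tm} (ha : a.Below ζ)
    (hz : (ζ : WithTop Idx) ≤ z) (p : Cond) : Frc z a p ↔ Frc (ζ : WithTop Idx) a p := by
  induction a generalizing p with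
  | bot => exact Iff.rfl
  | atom ξ σ =>
    have hξ : ξ < ζ := ha
    constructor
    · intro h q hq
      obtain ⟨r, hr, hs⟩ := h (glue ζ q p) (glue_le z hq)
      exact ⟨r, (hr.mono hz).trans (glue_le_left ζ q p), hs⟩
    · intro h q hq
      obtain ⟨r, hr, hs⟩ := h q (hq.mono hz)
      exact ⟨glue ζ r q, glue_le z hr, by rw [glue_st_lt r q hξ]; exact hs⟩
  | neg a ih =>
    constructor
    · intro h q hq hf
      refine h (glue ζ q p) (glue_le z hq) ((ih ha _).mpr ?_)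
      exact Frc.mono hf (glue_le_left ζ q p)
    · intro h q hq hf
      exact h q (hq.mono hz) ((ih ha _).mp hf)
  | sup f ih =>
    constructor
    · intro h q hq
      obtain ⟨r, hr, n, hn⟩ := h (glue ζ q p) (glue_le z hq)
      exact ⟨r, (hr.mono hz).trans (glue_le_left ζ q p), n, (ih n (ha n) _).mp hn⟩
    · intro h q hq
      obtain ⟨r, hr, n, hn⟩ := h q (hq.mono hz)
      exact ⟨glue ζ r q, glue_le z hr, n,
        (ih n (ha n) _).mpr (Frc.mono hn (glue_le_left ζ r q))⟩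

theorem eqF_local {ζ : Idx} {z : WithTop Idx} {a b : Tm} (ha : a.Below ζ) (hb : b.Below ζ)
    (hz : (ζ : WithTop Idx) ≤ z) (p : Cond) : EqF z a b p ↔ EqF (ζ : WithTop Idx) a b p := by
  constructor
  · intro h q hq
    have h1 := h (glue ζ q p) (glue_le z hq)
    rw [frc_local ha hz, frc_local hb hz] at h1
    constructor
    · intro h2
      exact Frc.mono (h1.mp (Frc.mono h2 (glue_le_left ζ q p))) (left_le_glue ζ q p)
    · intro h2
      exact Frc.mono (h1.mpr (Frc.mono h2 (glue_le_left ζ q p))) (left_le_glue ζ q p)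
  · intro h q hq
    rw [frc_local ha hz, frc_local hb hz]
    exact h q (hq.mono hz)

theorem agree_local {ζ : Idx} {z : WithTop Idx} {x : Nm} (hx : ∀ j, (x j).Below ζ)
    (hz : (ζ : WithTop Idx) ≤ z) (u : List Bool) (p : Cond) :
    Agree z x u p ↔ Agree (ζ : WithTop Idx) x u p := by
  have hn : ∀ j, (Tm.neg (x j)).Below ζ := hx
  constructor
  · intro h j b hj
    exact ⟨fun hb => (frc_local (hx j) hz p).mp ((h j b hj).1 hb),
      fun hb => (frc_local (hn j) hz p).mp ((h j b hj).2 hb)⟩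
  · intro h j b hj
    exact ⟨fun hb => (frc_local (hx j) hz p).mpr ((h j b hj).1 hb),
      fun hb => (frc_local (hn j) hz p).mpr ((h j b hj).2 hb)⟩

theorem cap_local {ζ : Idx} {z : WithTop Idx} {x : Nm} (hx : ∀ j, (x j).Below ζ)
    (hz : (ζ : WithTop Idx) ≤ z) (L : ℕ) (S : List (List Bool)) (p : Cond) :
    Cap z x L S p ↔ Cap (ζ : WithTop Idx) x L S p := by
  constructor
  · intro h q hq
    obtain ⟨r, hr, u, hu, hl, ha⟩ := h (glue ζ q p) (glue_le z hq)
    exact ⟨r, (hr.mono hz).trans (glue_le_left ζ q p), u, hu, hl, (agree_local hx hz u r).mp ha⟩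
  · intro h q hq
    obtain ⟨r, hr, u, hu, hl, ha⟩ := h q (hq.mono hz)
    exact ⟨glue ζ r q, glue_le z hr, u, hu, hl,
      (agree_local hx hz u _).mpr (Agree.mono ha (glue_le_left ζ r q))⟩

/-- a term below `ζ` forced by `p` is forced by every condition stronger than `p` below `ζ` -/
theorem Frc.mono_local {ζ : Idx} {z : WithTop Idx} {a : Tm} (ha : a.Below ζ)
    (hz : (ζ : WithTop Idx) ≤ z) {p q : Cond} (h : Frc z a p) (hq : Le (ζ : WithTop Idx) q p) :
    Frc z a q :=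
  (frc_local ha hz q).mpr (Frc.mono ((frc_local ha hz p).mp h) hq)

theorem EqF.mono_local {ζ : Idx} {z : WithTop Idx} {a b : Tm} (ha : a.Below ζ) (hb : b.Below ζ)
    (hz : (ζ : WithTop Idx) ≤ z) {p q : Cond} (h : EqF z a b p) (hq : Le (ζ : WithTop Idx) q p) :
    EqF z a b q :=
  (eqF_local ha hb hz q).mpr (EqF.mono ((eqF_local ha hb hz p).mp h) hq)

end Pool.Agent.Lib.MP_4d8715_gt.KR
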