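import Pool.Agent.Lib.MP_4d8715_gt.KR.P.Rep

/-! # Mixing of names and limits of sequences of names (module P-NAMES)

`mix`: let `D` be the set of all `r` (closed under `≤[ζ]`) such that `r ≤[ζ] r0` for some `r0`, `x` with `Φ r0 x`; maximal countable
antichain `A ⊆ D`, for `r ∈ A` choose `x_r`; `y i j` = the term for `{q : ∃ r ∈ A, q ≤[ζ] r, Frc (x_r i j) q}` (`exists_term`).
`limit_name`: put the `n` names into one (`x_v (j * n + i)`), define recursively terms `V j v` (`x_v` agrees with `y` below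
`j`) and `y j = inf_m sup_{v > m} (V j v ∧ x_v j)`; `V (j+1) v = V j v ∧ (x_v j ↔ y j)`. Claim: for all `j`, `p`, `v0` there
are `q ≤ p` and `v ≥ v0` with `q ⊩ V j v`. -/

namespace Pool.Agent.Lib.MP_4d8715_gt.KR

theorem mix (ζ : Idx) (n : ℕ) (p : Cond) (Φ : Cond → (Fin n → Nm) → Prop)
    (hΦ : ∀ q, Le (ζ : WithTop Idx) q p → ∃ r, Le (ζ : WithTop Idx) r q ∧
      ∃ x : Fin n → Nm, (∀ i j, (x i j).Below ζ) ∧ Φ r x) :
    ∃ y : Fin n → Nm, (∀ i j, (y i j).Below ζ) ∧
      ∀ q, Le (ζ : WithTop Idx) q p → ∃ r, Le (ζ : WithTop Idx) r q ∧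
        ∃ (r0 : Cond) (x : Fin n → Nm), Le (ζ : WithTop Idx) r r0 ∧ Φ r0 x ∧
          ∀ i j, EqF (ζ : WithTop Idx) (x i j) (y i j) r := by
  set D : Set Cond := fun r => ∃ (r0 : Cond) (x : Fin n → Nm), Le (ζ : WithTop Idx) r r0 ∧
    Φ r0 x with hD
  obtain ⟨A, hAD, _, hanti, hmax⟩ := exists_antichain (ζ : WithTop Idx) D
  have hch : ∀ c : A, ∃ (r0 : Cond) (x : Fin n → Nm), Le (ζ : WithTop Idx) c r0 ∧
    Φ r0 x := fun c => hAD c.2
  choose r0 x hx1 hx2 using hch
  have hterm : ∀ (i : Fin n) (j : ℕ), ∃ a : Tm, a.Below ζ ∧ ∀ p, Frc (ζ : WithTop Idx) a p ↔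
      ∀ q, Le (ζ : WithTop Idx) q p → ∃ r, Le (ζ : WithTop Idx) r q ∧
        ∃ c : A, Le (ζ : WithTop Idx) r c ∧ Frc (ζ : WithTop Idx) (x c i j) r := by
    intro i j
    obtain ⟨a, ha, h⟩ := exists_term ζ (fun q => ∃ c : A, Le (ζ : WithTop Idx) q c ∧
      Frc (ζ : WithTop Idx) (x c i j) q) (by
        rintro q ⟨c, hc, hf⟩ q' hq'
        exact ⟨c, hq'.trans hc, hf.mono hq'⟩)
    exact ⟨a, ha, h⟩
  choose y hy1 hy2 using hterm
  refine ⟨y, hy1, ?_⟩
  intro q hq
  obtain ⟨r1, hr1, x1, _, hΦ1⟩ := hΦ q hq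
  obtain ⟨c, hc, s, hs1, hs2⟩ := hmax r1 ⟨r1, x1, Le.refl _ r1, hΦ1⟩
  refine ⟨s, hs1.trans hr1, r0 ⟨c, hc⟩, x ⟨c, hc⟩, hs2.trans (hx1 ⟨c, hc⟩), hx2 ⟨c, hc⟩, ?_⟩
  intro i j t ht
  constructor
  · intro hf
    rw [hy2]
    intro q' hq'
    exact ⟨q', Le.refl _ q', ⟨c, hc⟩, (hq'.trans ht).trans hs2, hf.mono hq'⟩
  · intro hf
    rw [hy2] at hf
    apply Frc.dense
    intro q' hq'
    obtain ⟨r', hr', c', hc', hf'⟩ := hf q' hq'
    refine ⟨r', hr', ?_⟩
    have hcc : (c' : Cond) = c := by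
      by_contra hne
      exact hanti c' c'.2 c hc hne ⟨r', hc', ((hr'.trans hq').trans ht).trans hs2⟩
    have hcc' : c' = ⟨c, hc⟩ := Subtype.ext hcc
    rw [hcc'] at hf'
    exact hf'

/-- `V k v`: the name `X v` agrees with the limit name below `k` -/
private def limV (X : ℕ → Nm) : ℕ → ℕ → Tm
  | 0, _ => .neg .bot
  | k + 1, v => Tm.and (limV X k v) (Tm.iff (X v k)
      (Tm.inf fun m => .sup fun v => if m < v then Tm.and (limV X k v) (X v k) else .bot))

private def limY (X : ℕ → Nm) (k : ℕ) : Tm :=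
  Tm.inf fun m => .sup fun v => if m < v then Tm.and (limV X k v) (X v k) else .bot

private theorem below_limY {ζ : Idx} {X : ℕ → Nm} (hX : ∀ v k, (X v k).Below ζ) (k : ℕ)
    (hV : ∀ v, (limV X k v).Below ζ) : (limY X k).Below ζ := by
  unfold limY
  rw [below_inf]
  intro m v
  show (if m < v then Tm.and (limV X k v) (X v k) else .bot : Tm).Below ζ
  split_ifs
  · exact below_and (hV v) (hX v k)
  · exact trivial

private theorem below_limV {ζ : Idx} {X : ℕ → Nm} (hX : ∀ v k, (X v k).Below ζ) (k : ℕ) :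
    ∀ v, (limV X k v).Below ζ := by
  induction k with
  | zero => intro v; exact trivial
  | succ k ih =>
    intro v
    exact below_and (ih v) (below_iff (hX v k) (below_limY hX k ih))

private theorem frc_limV {z : WithTop Idx} {X : ℕ → Nm} {v : ℕ} {q : Cond} (k : ℕ)
    (h : Frc z (limV X k v) q) : ∀ j < k, EqF z (X v j) (limY X j) q := by
  induction k with
  | zero => intro j hj; omega
  | succ k ih =>
    have h' : Frc z (Tm.and (limV X k v) (Tm.iff (X v k) (limY X k))) q := h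
    rw [frc_and, frc_iff] at h'
    intro j hj
    rcases Nat.lt_succ_iff_lt_or_eq.mp hj with h1 | h1
    · exact ih h'.1 j h1
    · rw [h1]; exact h'.2

private theorem limV_dense {z : WithTop Idx} (X : ℕ → Nm) (k : ℕ) :
    ∀ (p : Cond) (v0 : ℕ), ∃ q, Le z q p ∧ ∃ v ≥ v0, Frc z (limV X k v) q := by
  induction k with
  | zero =>
    intro p v0
    exact ⟨p, Le.refl z p, v0, le_rfl, fun _ _ h => h⟩
  | succ k ih =>
    intro p v0
    have key : ∃ q, Le z q p ∧ ∃ v ≥ v0, Frc z (limV X k v) q ∧ EqF z (X v k) (limY X k) q := by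
      obtain ⟨q1, hq1, h⟩ := frc_decide z (limY X k) p
      rcases h with h | h
      · have h1 := (frc_inf _ _).mp h v0
        obtain ⟨r, hr, v, hv⟩ := h1 q1 (Le.refl z q1)
        have hv' : Frc z (if v0 < v then Tm.and (limV X k v) (X v k) else .bot) r := hv
        split_ifs at hv' with hlt
        · rw [frc_and] at hv'
          exact ⟨r, hr.trans hq1, v, hlt.le, hv'.1, eqF_of_frc hv'.2 (h.mono hr)⟩
        · exact absurd hv' frc_bot
      · have h1 : ∃ m, ¬ Frc z (.sup fun v => if m < v then Tm.and (limV X k v) (X v k)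
            else .bot) q1 := by
          by_contra hcon
          push Not at hcon
          exact not_frc_both ((frc_inf _ _).mpr hcon : Frc z (limY X k) q1) h
        obtain ⟨m, hm⟩ := h1
        obtain ⟨q2, hq2, hn⟩ := exists_neg_of_not hm
        obtain ⟨q3, hq3, v, hv, hV⟩ := ih q2 (max v0 (m + 1))
        refine ⟨q3, (hq3.trans hq2).trans hq1, v, (le_max_left _ _).trans hv, hV, ?_⟩
        apply eqF_of_neg _ ((h.mono hq2).mono hq3)
        intro r hr hXr0
        have hXr : Frc z (X v k) r := hXr0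
        apply hn r (hr.trans hq3)
        intro s hs
        refine ⟨s, Le.refl z s, v, ?_⟩
        show Frc z (if m < v then Tm.and (limV X k v) (X v k) else .bot) s
        have hmv : m < v := lt_of_lt_of_le (by omega : m < max v0 (m + 1)) hv
        rw [if_pos hmv, frc_and]
        exact ⟨(hV.mono hr).mono hs, hXr.mono hs⟩
    obtain ⟨q, hq, v, hv, h1, h2⟩ := key
    refine ⟨q, hq, v, hv, ?_⟩
    show Frc z (Tm.and (limV X k v) (Tm.iff (X v k) (limY X k))) q
    rw [frc_and, frc_iff]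
    exact ⟨h1, h2⟩

theorem limit_name (ζ : Idx) (n : ℕ) (F : ℕ → Fin n → Nm) (hF : ∀ v i j, (F v i j).Below ζ) :
    ∃ y : Fin n → Nm, (∀ i j, (y i j).Below ζ) ∧
      ∀ (p : Cond) (N v0 : ℕ), ∃ q, Le (ζ : WithTop Idx) q p ∧ ∃ v ≥ v0,
        ∀ i, ∀ j < N, EqF (ζ : WithTop Idx) (F v i j) (y i j) q := by
  rcases Nat.eq_zero_or_pos n with rfl | hn
  · exact ⟨fun i => i.elim0, fun i => i.elim0, fun p N v0 =>
      ⟨p, Le.refl _ p, v0, le_rfl, fun i => i.elim0⟩⟩
  · set X : ℕ → Nm := fun v k => F v ⟨k % n, Nat.mod_lt k hn⟩ (k / n) with hX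
    have hXb : ∀ v k, (X v k).Below ζ := fun v k => hF _ _ _
    have hXe : ∀ (v : ℕ) (i : Fin n) (j : ℕ), X v (j * n + i) = F v i j := by
      intro v i j
      simp only [hX]
      have h1 : (j * n + (i : ℕ)) % n = i := by
        rw [Nat.mul_add_mod_of_lt i.2]
      have h2 : (j * n + (i : ℕ)) / n = j := by
        rw [mul_comm, Nat.mul_add_div hn, Nat.div_eq_of_lt i.2, add_zero]
      simp only [h1, h2]
    refine ⟨fun i j => limY X (j * n + i), fun i j => below_limY hXb _ (below_limV hXb _), ?_⟩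
    intro p N v0
    obtain ⟨q, hq, v, hv, h⟩ := limV_dense (z := (ζ : WithTop Idx)) X (N * n) p v0
    refine ⟨q, hq, v, hv, ?_⟩
    intro i j hj
    have h1 := frc_limV (N * n) h (j * n + i) (by
      calc j * n + i < j * n + n := by omega
        _ = (j + 1) * n := by ring
        _ ≤ N * n := Nat.mul_le_mul_right n hj)
    rw [hXe] at h1
    exact h1

end Pool.Agent.Lib.MP_4d8715_gt.KR
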