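import Pool.Agent.Lib.MP_4d8715_gt.KR.P.Defs

/-! # The order of the forcing notion (module P-ORDER) -/

namespace Pool.Agent.Lib.MP_4d8715_gt.KR

theorem leAt_eq (ζ : Idx) (p q : Cond) : leAt ζ p q ↔ Le (ζ : WithTop Idx) p q := by
  unfold leAt
  rw [WellFounded.fix_eq]
  constructor
  · intro h ξ hξ
    exact h ξ (WithTop.coe_lt_coe.mp hξ)
  · intro h ξ hξ
    exact h ξ (WithTop.coe_lt_coe.mpr hξ)

theorem order_leAt_eq (ζ : Idx) : leAt ζ = Le (ζ : WithTop Idx) :=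
  funext fun p => funext fun q => propext (leAt_eq ζ p q)

theorem clause_iff (ξ : Idx) (p q : Cond) : Clause ξ p q ↔
    q.st ξ ≤ p.st ξ ∧ q.F ξ ⊆ p.F ξ ∧ ∀ (L : ℕ) (S : List (List Bool)),
      (q.st ξ).s.length ≤ L → (p.st ξ).s[L]? = some S → ∀ x ∈ q.F ξ, Cap (ξ : WithTop Idx) x L S p := by
  unfold Clause clauseR Cap
  rw [order_leAt_eq]

theorem order_lt_length {α : Type*} {l : List α} {L : ℕ} {S : α} (h : l[L]? = some S) :
    L < l.length := (List.getElem?_eq_some_iff.mp h).1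

theorem Le.refl (z : WithTop Idx) (p : Cond) : Le z p p := by
  intro ξ _
  rw [clause_iff]
  refine ⟨⟨List.prefix_refl _, List.prefix_refl _⟩, Finset.Subset.refl _, fun L S h1 h2 => ?_⟩
  exact absurd (order_lt_length h2) (not_lt.mpr h1)

theorem order_clause_trans {ξ : Idx}
    (htr : ∀ p q r : Cond, Le (ξ : WithTop Idx) p q → Le (ξ : WithTop Idx) q r →
      Le (ξ : WithTop Idx) p r) {p q r : Cond} (h₁ : Clause ξ p q) (h₂ : Clause ξ q r)
    (hpq : Le (ξ : WithTop Idx) p q) : Clause ξ p r := by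
  rw [clause_iff] at h₁ h₂ ⊢
  obtain ⟨a1, b1, c1⟩ := h₁
  obtain ⟨a2, b2, c2⟩ := h₂
  refine ⟨⟨a2.1.trans a1.1, a2.2.trans a1.2⟩, b2.trans b1, fun L S hL hS x hx => ?_⟩
  by_cases hlt : L < (q.st ξ).s.length
  · have hS' : (q.st ξ).s[L]? = some S := by
      obtain ⟨t, ht⟩ := a1.2
      rw [← ht, List.getElem?_append_left hlt] at hS
      exact hS
    have hcap := c2 L S hL hS' x hx
    intro q' hq'
    exact hcap q' (htr q' p q hq' hpq)
  · exact c1 L S (not_lt.mp hlt) hS x (b2 hx)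

theorem order_trans_coe (ζ : Idx) : ∀ p q r : Cond, Le (ζ : WithTop Idx) p q →
    Le (ζ : WithTop Idx) q r → Le (ζ : WithTop Idx) p r := by
  induction ζ using WellFoundedLT.induction with
  | _ ζ ih =>
    intro p q r h₁ h₂ ξ hξ
    refine order_clause_trans (ih ξ (WithTop.coe_lt_coe.mp hξ)) (h₁ ξ hξ) (h₂ ξ hξ) ?_
    exact fun η hη => h₁ η (hη.trans hξ)

theorem Le.trans {z : WithTop Idx} {p q r : Cond} (h₁ : Le z p q) (h₂ : Le z q r) : Le z p r := by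
  intro ξ hξ
  refine order_clause_trans (order_trans_coe ξ) (h₁ ξ hξ) (h₂ ξ hξ) ?_
  exact fun η hη => h₁ η (hη.trans hξ)

theorem Le.mono {z z' : WithTop Idx} {p q : Cond} (h : z' ≤ z) (hp : Le z p q) : Le z' p q :=
  fun ξ hξ => hp ξ (hξ.trans_le h)

theorem Le.succ_iff (ζ : Idx) (p q : Cond) :
    Le ((Order.succ ζ : Idx) : WithTop Idx) p q ↔ Le (ζ : WithTop Idx) p q ∧ Clause ζ p q := by
  constructor
  · intro h
    refine ⟨fun ξ hξ => h ξ ?_, h ζ ?_⟩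
    · exact hξ.trans (WithTop.coe_lt_coe.mpr (Order.lt_succ ζ))
    · exact WithTop.coe_lt_coe.mpr (Order.lt_succ ζ)
  · rintro ⟨h1, h2⟩ ξ hξ
    rcases lt_or_eq_of_le (Order.lt_succ_iff.mp (WithTop.coe_lt_coe.mp hξ)) with h | h
    · exact h1 ξ (WithTop.coe_lt_coe.mpr h)
    · rw [h]; exact h2

theorem order_clause_congr {ξ : Idx}
    (hc : ∀ p p' q q' : Cond, (∀ η < ξ, p.st η = p'.st η ∧ p.F η = p'.F η) →
      (∀ η < ξ, q.st η = q'.st η ∧ q.F η = q'.F η) →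
      (Le (ξ : WithTop Idx) p q ↔ Le (ξ : WithTop Idx) p' q')) {p p' q q' : Cond}
    (hp : ∀ η ≤ ξ, p.st η = p'.st η ∧ p.F η = p'.F η)
    (hq : ∀ η ≤ ξ, q.st η = q'.st η ∧ q.F η = q'.F η) (h : Clause ξ p q) : Clause ξ p' q' := by
  rw [clause_iff] at h ⊢
  rw [← (hp ξ le_rfl).1, ← (hq ξ le_rfl).1, ← (hp ξ le_rfl).2, ← (hq ξ le_rfl).2]
  refine ⟨h.1, h.2.1, fun L S hL hS x hx => ?_⟩
  have hcap := h.2.2 L S hL hS x hx
  intro r hr
  exact hcap r ((hc r r p p' (fun _ _ => ⟨rfl, rfl⟩) (fun η hη => hp η hη.le)).mpr hr)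

theorem order_congr_coe (ζ : Idx) : ∀ p p' q q' : Cond,
    (∀ η < ζ, p.st η = p'.st η ∧ p.F η = p'.F η) → (∀ η < ζ, q.st η = q'.st η ∧ q.F η = q'.F η) →
      (Le (ζ : WithTop Idx) p q ↔ Le (ζ : WithTop Idx) p' q') := by
  induction ζ using WellFoundedLT.induction with
  | _ ζ ih =>
    intro p p' q q' hp hq
    constructor
    · intro h ξ hξ
      have hξ' := WithTop.coe_lt_coe.mp hξ
      exact order_clause_congr (ih ξ hξ') (fun η hη => hp η (hη.trans_lt hξ'))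
        (fun η hη => hq η (hη.trans_lt hξ')) (h ξ hξ)
    · intro h ξ hξ
      have hξ' := WithTop.coe_lt_coe.mp hξ
      exact order_clause_congr (ih ξ hξ')
        (fun η hη => ⟨(hp η (hη.trans_lt hξ')).1.symm, (hp η (hη.trans_lt hξ')).2.symm⟩)
        (fun η hη => ⟨(hq η (hη.trans_lt hξ')).1.symm, (hq η (hη.trans_lt hξ')).2.symm⟩) (h ξ hξ)

/-- `Le z` only depends on the coordinates below `z` -/
theorem Le.congr {z : WithTop Idx} {p p' q q' : Cond}
    (hp : ∀ ξ : Idx, (ξ : WithTop Idx) < z → p.st ξ = p'.st ξ ∧ p.F ξ = p'.F ξ)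
    (hq : ∀ ξ : Idx, (ξ : WithTop Idx) < z → q.st ξ = q'.st ξ ∧ q.F ξ = q'.F ξ) :
    Le z p q ↔ Le z p' q' := by
  constructor
  · intro h ξ hξ
    have hlt : ∀ η ≤ ξ, (η : WithTop Idx) < z := fun η hη =>
      (WithTop.coe_le_coe.mpr hη).trans_lt hξ
    exact order_clause_congr (order_congr_coe ξ) (fun η hη => hp η (hlt η hη))
      (fun η hη => hq η (hlt η hη)) (h ξ hξ)
  · intro h ξ hξ
    have hlt : ∀ η ≤ ξ, (η : WithTop Idx) < z := fun η hη =>
      (WithTop.coe_le_coe.mpr hη).trans_lt hξ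
    exact order_clause_congr (order_congr_coe ξ)
      (fun η hη => ⟨(hp η (hlt η hη)).1.symm, (hp η (hlt η hη)).2.symm⟩)
      (fun η hη => ⟨(hq η (hlt η hη)).1.symm, (hq η (hlt η hη)).2.symm⟩) (h ξ hξ)

/-- a condition is determined, up to equivalence, by its coordinates below a bound of its support -/
theorem exists_bound (p : Cond) : ∃ ζ : Idx, ∀ ξ, ζ ≤ ξ → p.st ξ = Stem.nil ∧ p.F ξ = ∅ := by
  obtain ⟨b, hb⟩ := p.fin.bddAbove
  refine ⟨Order.succ b, fun ξ hξ => ?_⟩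
  have h1 : p.st ξ = Stem.nil := by
    by_contra hne
    have := hb hne
    exact absurd (Order.succ_le_iff.mp hξ) (not_lt.mpr this)
  refine ⟨h1, ?_⟩
  have h2 := p.card ξ
  rw [h1] at h2
  exact Finset.card_eq_zero.mp (Nat.le_zero.mp h2)

/-- if `p` is trivial from `ζ` on then `Le ζ q p` is the same as `Le z q p` for `ζ ≤ z` -/
theorem Le.of_bound {z : WithTop Idx} {ζ : Idx} {p q : Cond}
    (hp : ∀ ξ, ζ ≤ ξ → p.st ξ = Stem.nil ∧ p.F ξ = ∅) (h : Le (ζ : WithTop Idx) q p) : Le z q p := by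
  intro ξ _
  rcases lt_or_ge ξ ζ with hlt | hge
  · exact h ξ (WithTop.coe_lt_coe.mpr hlt)
  · rw [clause_iff, (hp ξ hge).1, (hp ξ hge).2]
    refine ⟨⟨List.nil_prefix, List.nil_prefix⟩, Finset.empty_subset _, fun L S _ _ x hx => ?_⟩
    exact absurd hx (Finset.notMem_empty x)

end Pool.Agent.Lib.MP_4d8715_gt.KR
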