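import Pool.Agent.Lib.MP_4d8715_gt.KR.P.CCC

/-! # Every open set is represented by a term (module P-REP)

`tAnd`, `tAll`: conjunctions. `cond_term`: (3.7) of `KR_paper.md`: conjunction over the finitely many `ξ < ζ` with
`p.st ξ ≠ nil` of `atom ξ (p.st ξ)` and, for all `L ≥ |s|`, `x ∈ p.F ξ`, of
`sup_n (atom ξ (stemEnum n) ∧ [x|L ∈ (stemEnum n).s[L]])` (only stems of length `> L`).
Proof of (←): if `r ≤[ζ] q`, take `r' ≤[ζ] r` with `r' ≤[ζ] p`, then `r'` forces all conjuncts. (→): given `r ≤[ζ] q`; refine so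
that `p.st ξ ≤ r.st ξ` for the finitely many `ξ`, make room (`ext_stem`), add the names `p.F ξ` (`add_names`); the result `r'` is
`≤[ζ] p`: for `|p.s| ≤ L < |r'.s|` the condition `r'` forces that some stem `σ` compatible with its own has
`x|L ∈ σ.s[L]`, and `σ.s[L] = (r'.st ξ).s[L]`; the statement `x|L ∈ (r'.st ξ).s[L]` is below `ξ` (`cap_local`).
`exists_term`: countable maximal antichain of `D`, `sup` of the terms of its members. -/

namespace Pool.Agent.Lib.MP_4d8715_gt.KR

/-- an enumeration of all stems -/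
noncomputable def stemEnum : ℕ → Stem :=
  haveI : Nonempty Stem := ⟨Stem.nil⟩
  (exists_surjective_nat Stem).choose

theorem stemEnum_surjective : Function.Surjective stemEnum := by
  haveI : Nonempty Stem := ⟨Stem.nil⟩
  exact (exists_surjective_nat Stem).choose_spec

/-- conjunction of countably many terms -/
def Tm.inf (f : ℕ → Tm) : Tm := .neg (.sup fun n => .neg (f n))

theorem frc_inf {z : WithTop Idx} (f : ℕ → Tm) (p : Cond) :
    Frc z (Tm.inf f) p ↔ ∀ n, Frc z (f n) p := by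
  constructor
  · intro h n
    by_contra hcon
    obtain ⟨q, hq, hn⟩ := exists_neg_of_not hcon
    refine h q hq ?_
    intro q' hq'
    exact ⟨q', Le.refl z q', n, hn.mono hq'⟩
  · intro h q hq hs
    obtain ⟨r, hr, n, hn⟩ := hs q (Le.refl z q)
    exact not_frc_both (((h n).mono hq).mono hr) hn

theorem below_inf {ζ : Idx} (f : ℕ → Tm) : (Tm.inf f).Below ζ ↔ ∀ n, (f n).Below ζ := Iff.rfl

/-- conjunction of two terms -/
def Tm.and (a b : Tm) : Tm := Tm.inf fun n => if n = 0 then a else b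

theorem frc_and {z : WithTop Idx} (a b : Tm) (p : Cond) :
    Frc z (Tm.and a b) p ↔ Frc z a p ∧ Frc z b p := by
  unfold Tm.and
  rw [frc_inf]
  constructor
  · intro h
    exact ⟨by simpa using h 0, by simpa using h 1⟩
  · intro h n
    split_ifs
    · exact h.1
    · exact h.2

/-- equivalence of two terms -/
def Tm.iff (a b : Tm) : Tm := (Tm.and a b.neg).neg.and (Tm.and b a.neg).neg

theorem frc_iff {z : WithTop Idx} (a b : Tm) (p : Cond) :
    Frc z (Tm.iff a b) p ↔ EqF z a b p := by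
  unfold Tm.iff
  rw [frc_and]
  constructor
  · rintro ⟨h1, h2⟩ q hq
    constructor
    · intro ha
      by_contra hcon
      obtain ⟨r, hr, hn⟩ := exists_neg_of_not hcon
      exact h1 r (hr.trans hq) ((frc_and _ _ _).mpr ⟨ha.mono hr, hn⟩)
    · intro hb
      by_contra hcon
      obtain ⟨r, hr, hn⟩ := exists_neg_of_not hcon
      exact h2 r (hr.trans hq) ((frc_and _ _ _).mpr ⟨hb.mono hr, hn⟩)
  · intro h
    constructor
    · intro q hq hab
      obtain ⟨h1, h2⟩ := (frc_and _ _ _).mp hab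
      exact not_frc_both ((h q hq).mp h1) h2
    · intro q hq hab
      obtain ⟨h1, h2⟩ := (frc_and _ _ _).mp hab
      exact not_frc_both ((h q hq).mpr h1) h2

theorem below_and {ζ : Idx} {a b : Tm} (ha : a.Below ζ) (hb : b.Below ζ) :
    (Tm.and a b).Below ζ := by
  unfold Tm.and
  rw [below_inf]
  intro n
  split_ifs
  · exact ha
  · exact hb

theorem below_iff {ζ : Idx} {a b : Tm} (ha : a.Below ζ) (hb : b.Below ζ) :
    (Tm.iff a b).Below ζ :=
  below_and (below_and ha hb : (Tm.and a b.neg).Below ζ) (below_and hb ha : (Tm.and b a.neg).Below ζ)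

private theorem frc_neg_bot {z : WithTop Idx} (p : Cond) : Frc z (.neg .bot) p :=
  fun _ _ h => h

/-- conjunction over a list -/
private def infL {α : Type*} (l : List α) (g : α → Tm) : Tm :=
  Tm.inf fun i => (l[i]?.map g).getD (.neg .bot)

private theorem frc_infL {z : WithTop Idx} {α : Type*} (l : List α) (g : α → Tm) (p : Cond) :
    Frc z (infL l g) p ↔ ∀ x ∈ l, Frc z (g x) p := by
  unfold infL
  rw [frc_inf]
  constructor
  · intro h x hx
    obtain ⟨i, hi, hx⟩ := List.getElem_of_mem hx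
    have := h i
    rwa [List.getElem?_eq_getElem hi, Option.map_some, Option.getD_some, hx] at this
  · intro h i
    rcases lt_or_ge i l.length with hi | hi
    · rw [List.getElem?_eq_getElem hi, Option.map_some, Option.getD_some]
      exact h _ (List.getElem_mem hi)
    · rw [List.getElem?_eq_none hi]
      exact frc_neg_bot p

private theorem below_infL {ζ : Idx} {α : Type*} (l : List α) (g : α → Tm)
    (h : ∀ x ∈ l, (g x).Below ζ) : (infL l g).Below ζ := by
  unfold infL
  rw [below_inf]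
  intro i
  rcases lt_or_ge i l.length with hi | hi
  · rw [List.getElem?_eq_getElem hi, Option.map_some, Option.getD_some]
    exact h _ (List.getElem_mem hi)
  · rw [List.getElem?_eq_none hi]
    exact trivial

/-- the term of `Agree` -/
private def agT (x : Nm) (u : List Bool) : Tm :=
  Tm.inf fun j => (u[j]?.map fun b => if b then x j else .neg (x j)).getD (.neg .bot)

private theorem frc_agT {z : WithTop Idx} (x : Nm) (u : List Bool) (p : Cond) :
    Frc z (agT x u) p ↔ Agree z x u p := by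
  unfold agT
  rw [frc_inf]
  constructor
  · intro h j b hb
    have := h j
    rw [hb, Option.map_some, Option.getD_some] at this
    cases b
    · exact ⟨fun h => by simp at h, fun _ => show Frc z (.neg (x j)) p by simpa using this⟩
    · exact ⟨fun _ => show Frc z (x j) p by simpa using this, fun h => by simp at h⟩
  · intro h j
    cases hb : u[j]? with
    | none => exact frc_neg_bot p
    | some b =>
      rw [Option.map_some, Option.getD_some]
      cases b
      · have h1 : Frc z (.neg (x j)) p := (h j false hb).2 rfl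
        simpa using h1
      · have h1 : Frc z (x j) p := (h j true hb).1 rfl
        simpa using h1

private theorem below_agT {ζ : Idx} (x : Nm) (u : List Bool) (h : ∀ j, (x j).Below ζ) :
    (agT x u).Below ζ := by
  unfold agT
  rw [below_inf]
  intro j
  cases u[j]? with
  | none => exact trivial
  | some b =>
    rw [Option.map_some, Option.getD_some]
    cases b
    · exact h j
    · exact h j

/-- the term of `Cap` -/
private def capT (x : Nm) (L : ℕ) (S : List (List Bool)) : Tm :=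
  .sup fun i => (S[i]?.map fun u => if u.length = L then agT x u else .bot).getD .bot

private theorem frc_capT {z : WithTop Idx} (x : Nm) (L : ℕ) (S : List (List Bool)) (p : Cond) :
    Frc z (capT x L S) p ↔ Cap z x L S p := by
  unfold capT
  rw [frc_sup]
  constructor
  · intro h q hq
    obtain ⟨r, hr, i, hi⟩ := h q hq
    refine ⟨r, hr, ?_⟩
    cases hu : S[i]? with
    | none =>
      rw [hu] at hi
      exact absurd hi frc_bot
    | some u =>
      rw [hu, Option.map_some, Option.getD_some] at hi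
      split_ifs at hi with hl
      · exact ⟨u, List.mem_of_getElem? hu, hl, (frc_agT x u r).mp hi⟩
      · exact absurd hi frc_bot
  · intro h q hq
    obtain ⟨r, hr, u, hu, hl, ha⟩ := h q hq
    refine ⟨r, hr, ?_⟩
    obtain ⟨i, hi, hui⟩ := List.getElem_of_mem hu
    refine ⟨i, ?_⟩
    rw [List.getElem?_eq_getElem hi, Option.map_some, Option.getD_some, hui, if_pos hl]
    exact (frc_agT x u r).mpr ha

private theorem below_capT {ζ : Idx} (x : Nm) (L : ℕ) (S : List (List Bool))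
    (h : ∀ j, (x j).Below ζ) : (capT x L S).Below ζ := by
  intro i
  show ((S[i]?.map fun u => if u.length = L then agT x u else .bot).getD .bot).Below ζ
  cases S[i]? with
  | none => exact trivial
  | some u =>
    rw [Option.map_some, Option.getD_some]
    split_ifs
    · exact below_agT x u h
    · exact trivial

/-- the term `x|L` is in the generic slalom at `ξ` -/
private noncomputable def lvT (ξ : Idx) (x : Nm) (L : ℕ) : Tm :=
  .sup fun n => ((stemEnum n).s[L]?.map fun S => Tm.and (.atom ξ (stemEnum n)) (capT x L S)).getD .bot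

private theorem below_lvT {ζ ξ : Idx} (hξ : ξ < ζ) (x : Nm) (L : ℕ) (h : ∀ j, (x j).Below ξ) :
    (lvT ξ x L).Below ζ := by
  intro n
  show (((stemEnum n).s[L]?.map fun S =>
    Tm.and (.atom ξ (stemEnum n)) (capT x L S)).getD .bot).Below ζ
  cases (stemEnum n).s[L]? with
  | none => exact trivial
  | some S =>
    rw [Option.map_some, Option.getD_some]
    exact below_and (a := .atom ξ (stemEnum n)) hξ (below_capT x L S fun j => (h j).mono hξ.le)

private theorem stem_trans {σ τ υ : Stem} (h : σ ≤ τ) (h' : τ ≤ υ) : σ ≤ υ :=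
  ⟨h.1.trans h'.1, h.2.trans h'.2⟩

private theorem stem_refl (σ : Stem) : σ ≤ σ := ⟨List.prefix_rfl, List.prefix_rfl⟩

private theorem nil_le (σ : Stem) : Stem.nil ≤ σ :=
  ⟨List.nil_prefix, List.nil_prefix⟩

private theorem F_nil {p : Cond} {ξ : Idx} (h : p.st ξ = Stem.nil) : p.F ξ = ∅ := by
  have := p.card ξ
  rw [h] at this
  simpa [Stem.nil] using this

private theorem Le.st {z : WithTop Idx} {p q : Cond} (h : Le z p q) {ξ : Idx}
    (hξ : (ξ : WithTop Idx) < z) : q.st ξ ≤ p.st ξ := ((clause_iff ξ p q).mp (h ξ hξ)).1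

private theorem Le.F {z : WithTop Idx} {p q : Cond} (h : Le z p q) {ξ : Idx}
    (hξ : (ξ : WithTop Idx) < z) : q.F ξ ⊆ p.F ξ := ((clause_iff ξ p q).mp (h ξ hξ)).2.1

private theorem get_of_le {σ τ : Stem} (h : σ ≤ τ) {L : ℕ} {S : List (List Bool)}
    (hS : σ.s[L]? = some S) : τ.s[L]? = some S := by
  obtain ⟨t, ht⟩ := h.2
  rw [← ht]
  have hL : L < σ.s.length := by
    by_contra hcon
    rw [List.getElem?_eq_none (by omega)] at hS
    simp at hS
  rw [List.getElem?_append_left hL, hS]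

private theorem frc_lvT_of_le {z : WithTop Idx} {ξ : Idx} (hξ : (ξ : WithTop Idx) < z)
    {p q : Cond} (h : Le z q p) {x : Nm} (hx : x ∈ p.F ξ) {L : ℕ} (hL : (p.st ξ).s.length ≤ L) :
    Frc z (lvT ξ x L) q := by
  intro s hs
  obtain ⟨s', hs', _, hN, _, _⟩ := ext_stem s ξ (L + 1) (s.st ξ).t List.prefix_rfl
  have hs'z : Le z s' s := hs'.mono le_top
  refine ⟨s', hs'z, ?_⟩
  obtain ⟨n, hn⟩ := stemEnum_surjective (s'.st ξ)
  refine ⟨n, ?_⟩
  have hget : (s'.st ξ).s[L]? = some ((s'.st ξ).s[L]'(by omega)) :=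
    List.getElem?_eq_getElem (by omega)
  show Frc z (((stemEnum n).s[L]?.map fun S =>
    Tm.and (.atom ξ (stemEnum n)) (capT x L S)).getD .bot) s'
  rw [hn, hget, Option.map_some, Option.getD_some, frc_and]
  constructor
  · intro t ht
    exact ⟨t, Le.refl z t, Le.st ht hξ⟩
  · rw [frc_capT]
    have hle : Le z s' p := (hs'z.trans hs).trans h
    have hcl := ((clause_iff ξ s' p).mp (hle ξ hξ)).2.2 L _ hL hget x hx
    exact (cap_local (p.below ξ x hx) hξ.le L _ s').mpr hcl

private theorem cap_of_lvT {z : WithTop Idx} {ξ : Idx} (hξ : (ξ : WithTop Idx) < z)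
    {x : Nm} (hx : ∀ j, (x j).Below ξ) {L : ℕ} {q : Cond} {S : List (List Bool)}
    (hS : (q.st ξ).s[L]? = some S) (h : Frc z (lvT ξ x L) q) : Cap (ξ : WithTop Idx) x L S q := by
  rw [← cap_local hx hξ.le L S q]
  apply Cap.dense
  intro s hs
  obtain ⟨s', hs', n, hn0⟩ := h s hs
  have hn : Frc z (((stemEnum n).s[L]?.map fun S =>
    Tm.and (.atom ξ (stemEnum n)) (capT x L S)).getD .bot) s' := hn0
  cases hS' : (stemEnum n).s[L]? with
  | none =>
    rw [hS'] at hn
    exact absurd hn frc_bot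
  | some S' =>
    have hn' : Frc z (Tm.and (.atom ξ (stemEnum n)) (capT x L S')) s' := by
      rw [hS', Option.map_some, Option.getD_some] at hn
      exact hn
    rw [frc_and, frc_capT] at hn'
    obtain ⟨s'', hs'', hle⟩ := hn'.1 s' (Le.refl z s')
    refine ⟨s'', hs''.trans hs', ?_⟩
    have h1 := get_of_le hle hS'
    have h2 := get_of_le (Le.st ((hs''.trans hs').trans hs) hξ) hS
    rw [h1] at h2
    cases h2
    exact hn'.2.mono hs''

open Classical in
/-- the term of a coordinate of a condition -/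
private noncomputable def coT (p : Cond) (ξ : Idx) : Tm :=
  Tm.and (.atom ξ (p.st ξ)) (infL (p.F ξ).toList fun x =>
    Tm.inf fun L => if (p.st ξ).s.length ≤ L then lvT ξ x L else .neg .bot)

private theorem frc_coT {z : WithTop Idx} (p : Cond) (ξ : Idx) (q : Cond) :
    Frc z (coT p ξ) q ↔ Frc z (.atom ξ (p.st ξ)) q ∧
      ∀ x ∈ p.F ξ, ∀ L, (p.st ξ).s.length ≤ L → Frc z (lvT ξ x L) q := by
  unfold coT
  rw [frc_and, frc_infL]
  simp only [Finset.mem_toList, frc_inf]
  constructor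
  · rintro ⟨h1, h2⟩
    refine ⟨h1, fun x hx L hL => ?_⟩
    have := h2 x hx L
    rwa [if_pos hL] at this
  · rintro ⟨h1, h2⟩
    refine ⟨h1, fun x hx L => ?_⟩
    split_ifs with hL
    · exact h2 x hx L hL
    · exact frc_neg_bot q

private theorem below_coT {ζ : Idx} (p : Cond) {ξ : Idx} (hξ : ξ < ζ) : (coT p ξ).Below ζ := by
  unfold coT
  refine below_and (a := .atom ξ (p.st ξ)) hξ (below_infL _ _ fun x hx => ?_)
  rw [below_inf]
  intro L
  split_ifs
  · exact below_lvT hξ x L (p.below ξ x (Finset.mem_toList.mp hx))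
  · exact trivial

private theorem refine_step {ζ ξ : Idx} (hξ : ξ < ζ) {p r : Cond}
    (h : Frc (ζ : WithTop Idx) (.atom ξ (p.st ξ)) r) :
    ∃ r', Le (ζ : WithTop Idx) r' r ∧ p.st ξ ≤ r'.st ξ ∧ p.F ξ ⊆ r'.F ξ := by
  classical
  have hξ' : (ξ : WithTop Idx) < (ζ : WithTop Idx) := WithTop.coe_lt_coe.mpr hξ
  obtain ⟨r1, hr1, hst⟩ := h r (Le.refl _ r)
  obtain ⟨r2, hr2, _, hN, hF2, _⟩ := ext_stem r1 ξ (r1.F ξ ∪ p.F ξ).card (r1.st ξ).t
    List.prefix_rfl
  obtain ⟨r3, hr3, hst3, hF3, _⟩ := add_names r2 ξ (r2.F ξ ∪ p.F ξ)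
    (by
      intro x hx
      rcases Finset.mem_union.mp hx with hx | hx
      · exact r2.below ξ x hx
      · exact p.below ξ x hx)
    Finset.subset_union_left (by rw [hF2]; exact hN)
  refine ⟨r3, ((hr3.mono le_top).trans (hr2.mono le_top)).trans hr1, ?_, ?_⟩
  · have h2 := Le.st (hr2.mono (le_top : (ζ : WithTop Idx) ≤ ⊤)) hξ'
    rw [hst3]
    exact stem_trans hst h2
  · rw [hF3]
    exact Finset.subset_union_right

private theorem refine_list {ζ : Idx} {p q : Cond} (l : List Idx) (hl : ∀ ξ ∈ l, ξ < ζ)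
    (h : ∀ ξ ∈ l, Frc (ζ : WithTop Idx) (.atom ξ (p.st ξ)) q) :
    ∀ r, Le (ζ : WithTop Idx) r q →
      ∃ r', Le (ζ : WithTop Idx) r' r ∧ ∀ ξ ∈ l, p.st ξ ≤ r'.st ξ ∧ p.F ξ ⊆ r'.F ξ := by
  induction l with
  | nil =>
    intro r _
    exact ⟨r, Le.refl _ r, by simp⟩
  | cons ξ l ih =>
    intro r hr
    obtain ⟨r1, hr1, h1⟩ := ih (fun η hη => hl η (List.mem_cons_of_mem _ hη))
      (fun η hη => h η (List.mem_cons_of_mem _ hη)) r hr
    obtain ⟨r2, hr2, h2, h3⟩ := refine_step (hl ξ List.mem_cons_self)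
      ((h ξ List.mem_cons_self).mono (hr1.trans hr))
    refine ⟨r2, hr2.trans hr1, ?_⟩
    intro η hη
    rcases List.mem_cons.mp hη with rfl | hη'
    · exact ⟨h2, h3⟩
    · have hη'' : (η : WithTop Idx) < (ζ : WithTop Idx) := WithTop.coe_lt_coe.mpr (hl η hη)
      exact ⟨stem_trans (h1 η hη').1 (Le.st hr2 hη''), (h1 η hη').2.trans (Le.F hr2 hη'')⟩

theorem cond_term (ζ : Idx) (p : Cond) : ∃ a : Tm, a.Below ζ ∧
    ∀ q, Frc (ζ : WithTop Idx) a q ↔
      ∀ r, Le (ζ : WithTop Idx) r q → ∃ r', Le (ζ : WithTop Idx) r' r ∧ Le (ζ : WithTop Idx) r' p := by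
  classical
  set l : List Idx := (p.fin.toFinset.filter (· < ζ)).toList with hl
  have hmem : ∀ ξ, ξ ∈ l ↔ p.st ξ ≠ Stem.nil ∧ ξ < ζ := by
    intro ξ
    rw [hl, Finset.mem_toList, Finset.mem_filter, Set.Finite.mem_toFinset]
    rfl
  refine ⟨infL l (coT p), below_infL _ _ fun ξ hξ => below_coT p ((hmem ξ).mp hξ).2, ?_⟩
  intro q
  rw [frc_infL]
  constructor
  · intro h r hr
    obtain ⟨r', hr', h'⟩ := refine_list (p := p) l (fun ξ hξ => ((hmem ξ).mp hξ).2)
      (fun ξ hξ => ((frc_coT p ξ q).mp (h ξ hξ)).1) r hr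
    refine ⟨r', hr', ?_⟩
    intro ξ hξ
    have hξ' : ξ < ζ := WithTop.coe_lt_coe.mp hξ
    rw [clause_iff]
    by_cases hn : p.st ξ = Stem.nil
    · refine ⟨by rw [hn]; exact nil_le _, by rw [F_nil hn]; exact Finset.empty_subset _, ?_⟩
      intro L S _ _ x hx
      rw [F_nil hn] at hx
      simp at hx
    · have hξl : ξ ∈ l := (hmem ξ).mpr ⟨hn, hξ'⟩
      refine ⟨(h' ξ hξl).1, (h' ξ hξl).2, ?_⟩
      intro L S hL hS x hx
      have h1 := ((frc_coT p ξ q).mp (h ξ hξl)).2 x hx L hL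
      exact cap_of_lvT hξ (p.below ξ x hx) hS (h1.mono (hr'.trans hr))
  · intro h ξ hξ
    have hξ' : (ξ : WithTop Idx) < (ζ : WithTop Idx) :=
      WithTop.coe_lt_coe.mpr ((hmem ξ).mp hξ).2
    apply Frc.dense
    intro r hr
    obtain ⟨r', hr', hp⟩ := h r hr
    refine ⟨r', hr', ?_⟩
    rw [frc_coT]
    refine ⟨?_, fun x hx L hL => frc_lvT_of_le hξ' hp hx hL⟩
    intro t ht
    exact ⟨t, Le.refl _ t, stem_trans (Le.st hp hξ') (Le.st ht hξ')⟩

private theorem sup_term {z : WithTop Idx} (ζ : Idx) (A : Set Cond) (hA : A.Countable)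
    (a : Cond → Tm) (ha : ∀ c, (a c).Below ζ) : ∃ b : Tm, b.Below ζ ∧
      ∀ p, Frc z b p ↔ ∀ q, Le z q p → ∃ r, Le z r q ∧ ∃ c ∈ A, Frc z (a c) r := by
  rcases A.eq_empty_or_nonempty with hE | hne
  · refine ⟨.bot, trivial, fun p => ⟨fun h => absurd h frc_bot, fun h => ?_⟩⟩
    obtain ⟨r, _, c, hc, _⟩ := h p (Le.refl z p)
    rw [hE] at hc
    exact absurd hc (Set.notMem_empty c)
  · obtain ⟨f, hf⟩ := hA.exists_eq_range hne
    refine ⟨.sup fun n => a (f n), fun n => ha _, fun p => ?_⟩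
    rw [frc_sup]
    constructor
    · intro h q hq
      obtain ⟨r, hr, n, hn⟩ := h q hq
      exact ⟨r, hr, f n, by rw [hf]; exact ⟨n, rfl⟩, hn⟩
    · intro h q hq
      obtain ⟨r, hr, c, hc, hn⟩ := h q hq
      rw [hf] at hc
      obtain ⟨n, rfl⟩ := hc
      exact ⟨r, hr, n, hn⟩

theorem exists_term (ζ : Idx) (D : Set Cond)
    (hD : ∀ p ∈ D, ∀ q, Le (ζ : WithTop Idx) q p → q ∈ D) : ∃ a : Tm, a.Below ζ ∧
    ∀ p, Frc (ζ : WithTop Idx) a p ↔
      ∀ q, Le (ζ : WithTop Idx) q p → ∃ r, Le (ζ : WithTop Idx) r q ∧ r ∈ D := by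
  obtain ⟨A, hAD, hAc, _, hmax⟩ := exists_antichain (ζ : WithTop Idx) D
  choose a ha haf using cond_term ζ
  obtain ⟨b, hb, hbf⟩ := sup_term (z := (ζ : WithTop Idx)) ζ A hAc a ha
  refine ⟨b, hb, fun p => ?_⟩
  rw [hbf]
  constructor
  · intro h q hq
    obtain ⟨r, hr, c, hc, hn⟩ := h q hq
    obtain ⟨r', hr', hrc⟩ := (haf c r).mp hn r (Le.refl _ r)
    exact ⟨r', hr'.trans hr, hD c (hAD hc) r' hrc⟩
  · intro h q hq
    obtain ⟨r, hr, hrD⟩ := h q hq
    obtain ⟨c, hc, s, hs1, hs2⟩ := hmax r hrD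
    refine ⟨s, hs1.trans hr, c, hc, ?_⟩
    rw [haf]
    intro t ht
    exact ⟨t, Le.refl _ t, ht.trans hs2⟩

theorem exists_term_top (D : Set Cond) (hD : ∀ p ∈ D, ∀ q, Le ⊤ q p → q ∈ D) :
    ∃ (ζ : Idx) (a : Tm), a.Below ζ ∧
      ∀ p, Frc ⊤ a p ↔ ∀ q, Le ⊤ q p → ∃ r, Le ⊤ r q ∧ r ∈ D := by
  obtain ⟨A, hAD, hAc, _, hmax⟩ := exists_antichain ⊤ D
  choose bd hbd using exists_bound
  obtain ⟨ζ, hζ⟩ : ∃ ζ : Idx, ∀ c ∈ A, bd c ≤ ζ := by
    rcases A.eq_empty_or_nonempty with hE | hne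
    · exact ⟨0, fun c hc => by rw [hE] at hc; exact absurd hc (Set.notMem_empty c)⟩
    · obtain ⟨f, hf⟩ := hAc.exists_eq_range hne
      refine ⟨⨆ n, bd (f n), fun c hc => ?_⟩
      rw [hf] at hc
      obtain ⟨n, rfl⟩ := hc
      exact Ordinal.le_iSup (fun n => bd (f n)) n
  choose a ha haf using cond_term ζ
  obtain ⟨b, hb, hbf⟩ := sup_term (z := ⊤) ζ A hAc a ha
  refine ⟨ζ, b, hb, fun p => ?_⟩
  rw [hbf]
  constructor
  · intro h q hq
    obtain ⟨r, hr, c, hc, hn⟩ := h q hq
    rw [frc_local (ha c) le_top] at hn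
    obtain ⟨r', hr', hrc⟩ := (haf c r).mp hn r (Le.refl _ r)
    refine ⟨glue ζ r' r, (glue_le ⊤ hr').trans hr, ?_⟩
    apply hD c (hAD hc)
    exact Le.of_bound (fun ξ hξ => hbd c ξ ((hζ c hc).trans hξ)) ((glue_le_left ζ r' r).trans hrc)
  · intro h q hq
    obtain ⟨r, hr, hrD⟩ := h q hq
    obtain ⟨c, hc, s, hs1, hs2⟩ := hmax r hrD
    refine ⟨s, hs1.trans hr, c, hc, ?_⟩
    rw [frc_local (ha c) le_top, haf]
    intro t ht
    exact ⟨t, Le.refl _ t, ht.trans (hs2.mono le_top)⟩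

end Pool.Agent.Lib.MP_4d8715_gt.KR
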